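import Pool.Agent.T2h38.OP.Stm

/-!
# Project OP: task NUM
-/

set_option autoImplicit false

namespace Pool.Agent.T2h38.OP

theorem t_NUM : S_NUM := by
  intro k D w l S r Λ τ hk hDk hkl hSl hD hΛ h1 h2 hm
  obtain ⟨a, ha⟩ : ∃ a : ℝ, a = Real.log (1 + 1 / 160) := ⟨_, rfl⟩
  obtain ⟨b, hb⟩ : ∃ b : ℝ, b = Real.log 2 := ⟨_, rfl⟩
  have ha1 : (0.0062 : ℝ) ≤ a := by
    have h := Real.one_sub_inv_le_log_of_pos (x := 1 + 1 / 160) (by norm_num)
    rw [ha]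
    refine le_trans ?_ h
    norm_num
  have hb1 : b ≤ 0.7 := by
    rw [hb]
    have := Real.log_two_lt_d9
    linarith
  have hb0 : 0 ≤ b := by
    rw [hb]
    exact (Real.log_pos (by norm_num)).le
  -- natural number facts
  have hX1 : 1 ≤ (l + 1) * (l + w + 1) := Nat.mul_pos (by omega) (by omega)
  have hD1 : 2 ^ 40 ≤ D := le_trans (by omega) hD
  have hΛ1 : D ≤ 2048 * Λ := by omega
  have hΛ2 : 2 ≤ Λ := by omega
  have hPk : 2 ^ τ ≤ k := by
    have : 2 * 2 ^ τ ≤ Λ * 2 ^ τ := Nat.mul_le_mul_right _ hΛ2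
    omega
  have hτ : τ ≤ l := (Nat.pow_le_pow_iff_right (by norm_num)).1 (hPk.trans hkl)
  have hPD : 2 ^ τ * D ≤ 4096 * k := by
    calc 2 ^ τ * D ≤ 2 ^ τ * (2048 * Λ) := Nat.mul_le_mul_left _ hΛ1
      _ = 2048 * (Λ * 2 ^ τ) := by ring
      _ ≤ 2048 * (2 * k) := Nat.mul_le_mul_left _ h2
      _ = 4096 * k := by ring
  -- logarithms
  have hlw : Real.log ((2 ^ w : ℕ) : ℝ) = w * b := by
    rw [hb]
    push_cast
    rw [Real.log_pow]
  have hlr : Real.log ((2 ^ r : ℕ) : ℝ) = r * b := by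
    rw [hb]
    push_cast
    rw [Real.log_pow]
  have hS' : (S : ℝ) ≤ 2 ^ l := by exact_mod_cast hSl
  have hLs : Real.log ((S : ℝ) + 1) ≤ ((l : ℝ) + 1) * b := by
    have e : ((l : ℝ) + 1) * b = Real.log ((2 : ℝ) ^ (l + 1)) := by
      rw [hb, Real.log_pow]
      push_cast
      ring
    rw [e]
    apply Real.log_le_log (by positivity)
    have : (1 : ℝ) ≤ 2 ^ l := one_le_pow₀ (by norm_num)
    rw [pow_succ]
    linarith
  have hLw : Real.log ((S : ℝ) * ((2 ^ w : ℕ) : ℝ) + 1) ≤ ((l : ℝ) + w + 1) * b := by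
    have e : ((l : ℝ) + w + 1) * b = Real.log ((2 : ℝ) ^ (l + w + 1)) := by
      rw [hb, Real.log_pow]
      push_cast
      ring
    rw [e]
    apply Real.log_le_log (by positivity)
    have h3 : (1 : ℝ) ≤ 2 ^ (l + w) := one_le_pow₀ (by norm_num)
    have h4 : (S : ℝ) * ((2 ^ w : ℕ) : ℝ) ≤ 2 ^ (l + w) := by
      rw [pow_add]
      push_cast
      exact mul_le_mul_of_nonneg_right hS' (by positivity)
    rw [pow_succ]
    linarith
  rw [hlw, hlr, ← ha, ← hb] at hm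
  obtain ⟨Ls, hLs'⟩ : ∃ x : ℝ, x = Real.log ((S : ℝ) + 1) := ⟨_, rfl⟩
  obtain ⟨Lw, hLw'⟩ : ∃ x : ℝ, x = Real.log ((S : ℝ) * ((2 ^ w : ℕ) : ℝ) + 1) := ⟨_, rfl⟩
  rw [← hLs', ← hLw'] at hm
  rw [← hLs'] at hLs
  rw [← hLw'] at hLw
  -- real variables
  obtain ⟨P, hP⟩ : ∃ x : ℝ, x = (2 : ℝ) ^ τ := ⟨_, rfl⟩
  rw [← hP] at hm
  have hP0 : 0 < P := by rw [hP]; positivity
  have hPDr : P * (D : ℝ) ≤ 4096 * (k : ℝ) := by
    rw [hP]
    exact_mod_cast hPD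
  have hDr : (2 : ℝ) ^ 40 * (((l : ℝ) + 1) * ((l : ℝ) + w + 1)) ≤ D := by exact_mod_cast hD
  have hkr : (1 : ℝ) ≤ k := by exact_mod_cast hk
  have hτr : (τ : ℝ) ≤ l := by exact_mod_cast hτ
  have hτ0 : (0 : ℝ) ≤ τ := Nat.cast_nonneg τ
  have hl0 : (0 : ℝ) ≤ l := Nat.cast_nonneg l
  have hw0 : (0 : ℝ) ≤ w := Nat.cast_nonneg w
  have hr0 : (0 : ℝ) ≤ r := Nat.cast_nonneg r
  have hS0 : (0 : ℝ) ≤ S := Nat.cast_nonneg S
  have hD0 : (0 : ℝ) ≤ D := Nat.cast_nonneg D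
  by_contra hcon
  push Not at hcon
  obtain ⟨c1, c2⟩ := hcon
  have c1' : (2 : ℝ) ^ 26 * ((l : ℝ) + 1) * r < k * D := by exact_mod_cast c1
  have c2' : (2 : ℝ) ^ 13 * ((S : ℝ) * w) < (k : ℝ) ^ 2 := by exact_mod_cast c2
  obtain ⟨X, hX⟩ : ∃ x : ℝ, x = ((l : ℝ) + 1) * ((l : ℝ) + w + 1) := ⟨_, rfl⟩
  rw [← hX] at hDr
  -- first bracket
  have hA : P * (b + 2 * ((k : ℝ) * 1024 * Ls) + 2 * k * b + r * b) ≤
      2051 * (P * b * k * ((l : ℝ) + 1)) + P * b * r := by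
    have h3 : b + 2 * ((k : ℝ) * 1024 * Ls) + 2 * k * b + r * b ≤
        2051 * (b * k * ((l : ℝ) + 1)) + b * r := by
      have h4 : (k : ℝ) * Ls ≤ k * (((l : ℝ) + 1) * b) := mul_le_mul_of_nonneg_left hLs (by linarith)
      have h5 : b ≤ b * k := le_mul_of_one_le_right hb0 hkr
      have h6 : 0 ≤ b * k * l := by positivity
      nlinarith
    have := mul_le_mul_of_nonneg_left h3 hP0.le
    linarith
  have hB : 2 * (τ * P * (b + (k : ℝ) * 1024 * Lw + 2 * k * b + r * b)) ≤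
      2054 * (P * b * k * (l * ((l : ℝ) + w + 1))) + 2 * (l * (P * b * r)) := by
    have h3 : b + (k : ℝ) * 1024 * Lw + 2 * k * b + r * b ≤
        1027 * (b * k * ((l : ℝ) + w + 1)) + b * r := by
      have h4 : (k : ℝ) * Lw ≤ k * (((l : ℝ) + w + 1) * b) := mul_le_mul_of_nonneg_left hLw (by linarith)
      have h5 : b ≤ b * k := le_mul_of_one_le_right hb0 hkr
      have h6 : 0 ≤ b * k * (l + w) := by positivity
      nlinarith
    have h7 : 0 ≤ 1027 * (b * k * ((l : ℝ) + w + 1)) + b * r := by positivity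
    have h8 : τ * P * (b + (k : ℝ) * 1024 * Lw + 2 * k * b + r * b) ≤
        l * P * (1027 * (b * k * ((l : ℝ) + w + 1)) + b * r) := by
      refine (mul_le_mul_of_nonneg_left h3 (by positivity)).trans ?_
      exact mul_le_mul_of_nonneg_right (mul_le_mul_of_nonneg_right hτr hP0.le) h7
    linarith
  have hC : 2051 * (P * b * k * ((l : ℝ) + 1)) + 2054 * (P * b * k * (l * ((l : ℝ) + w + 1))) ≤
      4105 * (P * b * k * X) := by
    have h3 : (l : ℝ) + 1 ≤ X := by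
      rw [hX]
      refine le_mul_of_one_le_right (by linarith) (by linarith)
    have h4 : l * ((l : ℝ) + w + 1) ≤ X := by
      rw [hX]
      exact mul_le_mul_of_nonneg_right (by linarith) (by linarith)
    have h5 : 0 ≤ P * b * k := by positivity
    have h6 := mul_le_mul_of_nonneg_left h3 h5
    have h7 := mul_le_mul_of_nonneg_left h4 h5
    linarith
  -- `P X k` is small
  have hPX : P * k * X ≤ (k : ℝ) ^ 2 / 2 ^ 28 := by
    have h3 : P * (2 ^ 40 * X) ≤ P * D := mul_le_mul_of_nonneg_left hDr hP0.le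
    have h4 : P * (2 ^ 40 * X) ≤ 4096 * k := h3.trans hPDr
    have h5 : P * X ≤ k / 2 ^ 28 := by
      rw [le_div_iff₀ (by positivity)]
      linarith
    have h6 := mul_le_mul_of_nonneg_right h5 (by linarith : (0 : ℝ) ≤ k)
    calc P * k * X = P * X * k := by ring
      _ ≤ k / 2 ^ 28 * k := h6
      _ = (k : ℝ) ^ 2 / 2 ^ 28 := by ring
  have hX0 : 0 ≤ X := by rw [hX]; positivity
  have hD' : P * b * k * X ≤ 0.7 * ((k : ℝ) ^ 2 / 2 ^ 28) := by
    calc P * b * k * X = b * (P * k * X) := by ring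
      _ ≤ 0.7 * (P * k * X) := mul_le_mul_of_nonneg_right hb1 (by positivity)
      _ ≤ _ := mul_le_mul_of_nonneg_left hPX (by norm_num)
  -- the `r` term
  have hE : P * b * r * (l + 1) ≤ 0.7 * ((k : ℝ) ^ 2 / 2 ^ 14) := by
    have h3 : P * ((2 : ℝ) ^ 26 * ((l : ℝ) + 1) * r) ≤ P * (k * D) := mul_le_mul_of_nonneg_left c1'.le hP0.le
    have h4 : P * (k * D) ≤ 4096 * (k : ℝ) ^ 2 := by
      have := mul_le_mul_of_nonneg_left hPDr (by linarith : (0 : ℝ) ≤ k)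
      nlinarith
    have h5 : P * r * (l + 1) ≤ (k : ℝ) ^ 2 / 2 ^ 14 := by
      rw [le_div_iff₀ (by positivity)]
      nlinarith
    calc P * b * r * (l + 1) = b * (P * r * (l + 1)) := by ring
      _ ≤ 0.7 * (P * r * (l + 1)) := mul_le_mul_of_nonneg_right hb1 (by positivity)
      _ ≤ _ := mul_le_mul_of_nonneg_left h5 (by norm_num)
  -- the `S` term
  have hF : (S : ℝ) * (w * b) ≤ 0.7 * ((k : ℝ) ^ 2 / 2 ^ 13) := by
    have h5 : (S : ℝ) * w ≤ (k : ℝ) ^ 2 / 2 ^ 13 := by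
      rw [le_div_iff₀ (by positivity)]
      nlinarith
    calc (S : ℝ) * (w * b) = b * (S * w) := by ring
      _ ≤ 0.7 * (S * w) := mul_le_mul_of_nonneg_right hb1 (by positivity)
      _ ≤ _ := mul_le_mul_of_nonneg_left h5 (by norm_num)
  have hG : (k : ℝ) ^ 2 * 0.0008 ≤ (k : ℝ) ^ 2 * (a / 4 - 2 * ((a + b) / 200000) - 2 * (1 / 4000)) -
      3 * (a / 128 * (k : ℝ) ^ 2) := by
    have h3 : (0.0008 : ℝ) ≤ a / 4 - 2 * ((a + b) / 200000) - 2 * (1 / 4000) - 3 * (a / 128) := by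
      linarith
    have := mul_le_mul_of_nonneg_left h3 (sq_nonneg (k : ℝ))
    linarith
  have hk2 : 0 < (k : ℝ) ^ 2 := by positivity
  have hl1 : l * (P * b * r) + P * b * r = P * b * r * (l + 1) := by ring
  have h0 : 0 ≤ P * b * r := by positivity
  have hfin : (k : ℝ) ^ 2 * 0.0008 ≤ 0.7 * ((k : ℝ) ^ 2 / 2 ^ 13) + 4105 * (0.7 * ((k : ℝ) ^ 2 / 2 ^ 28)) +
      2 * (0.7 * ((k : ℝ) ^ 2 / 2 ^ 14)) := by
    linarith
  norm_num at hfin
  linarith

end Pool.Agent.T2h38.OP
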