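import Mathlib
import Pool.Agent.T2h38.JM.Coin
import Pool.Agent.T2h38.JM.Fin2

/-!
# Project OP (helper38, MP_f326ae_lc): one fully adaptive joint probe

Goal: structures for set intersection (emptiness) with an unlimited separate memory for each single set
(`b` bits are read), `r` free joint bits and `S` joint cells of `w` bits, ONE of which is read, its
address depending on everything: `r ≥ c N / log N` or `S w ≥ c (N / D)²`, `D = max (100 b) (polylog)`.
(`ProbesToJointMemory` has this for `t` probes only for `b ≥ N^(1/3)`.)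

`k` sets on each side; the input is `z = (X, Y)`; the query of the pair `e = (i, j)` reads a set `o z e` of
at most one joint cell. The row load `rl` of the cell `c` in the row `i` is the number of the pairs of this
row which read `c`, and the column load is `cl`. Light pairs: both loads at most `Λ = D / 1024`. The light
pairs are treated with a random sample of the cells (rate `1 / 2 ^ τ`, `2 ^ τ ≈ k / Λ`), after the sampled cells
with a large load in the row or in the column have been excluded by advice. Pairs with row load in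
`(Λ 2^a, Λ 2^(a+1)]` are treated with a random choice of a few cells for each row (rate `2^(a-τ)`,
independently for the rows) and a random set of pairs (rate `2^(-a)`).
-/

set_option autoImplicit false

namespace Pool.Agent.T2h38.OP

open Finset Pool.Agent.T2h38.JM

section loads

variable {k S : ℕ}

/-- row load -/
def rl (o : Fin k × Fin k → Finset (Fin S)) (i : Fin k) (c : Fin S) : ℕ :=
  (univ.filter fun j => c ∈ o (i, j)).card

/-- column load -/
def cl (o : Fin k × Fin k → Finset (Fin S)) (j : Fin k) (c : Fin S) : ℕ :=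
  (univ.filter fun i => c ∈ o (i, j)).card

/-- pairs with a large row load -/
def RH (Λ : ℕ) (o : Fin k × Fin k → Finset (Fin S)) : Finset (Fin k × Fin k) :=
  univ.filter fun e => ∃ c ∈ o e, Λ < rl o e.1 c

/-- pairs with a large column load -/
def CH (Λ : ℕ) (o : Fin k × Fin k → Finset (Fin S)) : Finset (Fin k × Fin k) :=
  univ.filter fun e => ∃ c ∈ o e, Λ < cl o e.2 c

/-- light pairs -/
def LT (Λ : ℕ) (o : Fin k × Fin k → Finset (Fin S)) : Finset (Fin k × Fin k) :=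
  univ \ (RH Λ o ∪ CH Λ o)

/-- the cells whose row load is at scale `a` -/
def KC (Λ a : ℕ) (o : Fin k × Fin k → Finset (Fin S)) (i : Fin k) : Finset (Fin S) :=
  univ.filter fun c => Λ * 2 ^ a < rl o i c ∧ rl o i c ≤ Λ * 2 ^ (a + 1)

/-- pairs with row load at scale `a` -/
def RHa (Λ a : ℕ) (o : Fin k × Fin k → Finset (Fin S)) : Finset (Fin k × Fin k) :=
  univ.filter fun e => ∃ c ∈ o e, c ∈ KC Λ a o e.1

end loads

section samples

variable {k S τ : ℕ}

/-- the sample space for the rows -/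
abbrev OmR (k S τ : ℕ) : Type := ((Fin k × Fin S × Fin τ) ⊕ ((Fin k × Fin k) × Fin τ)) → Fin 2

/-- the cell `c` is chosen by the row `i` (rate `2^(-u)`) -/
def cho (u : ℕ) (ω : OmR k S τ) (i : Fin k) (c : Fin S) : Prop :=
  ∀ b : Fin τ, b.1 < u → ω (Sum.inl (i, c, b)) = 0

/-- the pair `e` is kept (rate `2^(-v)`) -/
def thi (v : ℕ) (ω : OmR k S τ) (e : Fin k × Fin k) : Prop :=
  ∀ b : Fin τ, b.1 < v → ω (Sum.inr (e, b)) = 0

/-- survival in the row case, at scale `a` -/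
def suR (a : ℕ) (o : Fin k × Fin k → Finset (Fin S)) (ω : OmR k S τ) (e : Fin k × Fin k) : Prop :=
  (∀ c ∈ o e, cho (τ - a) ω e.1 c) ∧ thi a ω e

/-- the sample space for the light pairs -/
abbrev OmL (k S m : ℕ) : Type := (Fin S ⊕ (Fin k × Fin k)) → Fin (m + 1)

/-- survival in the light case -/
def suL {m : ℕ} (o : Fin k × Fin k → Finset (Fin S)) (ω : OmL k S m) (e : Fin k × Fin k) : Prop :=
  (∀ c ∈ o e, ω (Sum.inl c) = 0) ∧ (o e = ∅ → ω (Sum.inr e) = 0)

end samples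

/-- GNR: the expected gain in the row case. Each pair of `RHa` has exactly one cell, so it survives iff `ω`
vanishes on a set of `(τ - a) + a = τ` coordinates: `JM.count_zero` with `m = 1` (or `JM.sum_sv`). -/
def S_GNR : Prop := ∀ (k S τ Λ a : ℕ), a < τ → ∀ (o : Fin k × Fin k → Finset (Fin S)),
  (∀ e, (o e).card ≤ 1) → ∀ w : Fin k × Fin k → ℝ,
  (open Classical in ∑ ω : OmR k S τ, ∑ e ∈ (RHa Λ a o).filter (fun e => suR a o ω e), w e) =
    (Fintype.card (OmR k S τ) : ℕ) * ((∑ e ∈ RHa Λ a o, w e) / 2 ^ τ)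

open Classical in
/-- LSR: the expected loss in the row case.
Proof (compare `JM.lost_bound`). For `e ∈ RHa` with its cell `c` the number of lost `ω` is at most the sum
of three terms. (1) If more than `h0` cells `c'` of `KC e.1` are chosen: (number of pairs `(ω, c')` with `e`
surviving and `c'` chosen) / `h0`; `c' = c` gives `2^(-τ)`, each other `c'` gives `2^(-τ-(τ-a))`
(disjoint coordinates), and there are at most `k / (Λ 2^a)` cells in `KC` (their loads sum to at most `k`,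
as `o` has at most one element), so with `k ≤ Λ 2^τ` the sum is `≤ 2 · 2^(-τ)`. (2) Row: the number of pairs
`(ω, e')`, `e' ∈ RHa` in the row, both surviving: `e' = e`: `2^(-τ)`; same cell, `e' ≠ e` (at most
`Λ 2^(a+1)`): the union of the coordinates has `(τ - a) + 2 a` elements, `2^(-τ-a)`; other cell (at most
`k`): `2^(-2τ)`; sum `≤ (1 + 2 Λ + Λ) 2^(-τ) ≤ 4 Λ 2^(-τ)`, divided by `D ≥ 1024 Λ`. (3) Column: `e' = e` or
`2^(-2τ)` (the coordinates of different rows are disjoint): `≤ (1 + Λ) 2^(-τ) ≤ 2 Λ 2^(-τ)`, divided by `D`.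
Total `(2 + 4 + 2) / 1024 = 1 / 128`. -/
def S_LSR : Prop := ∀ (k S τ Λ a D h0 : ℕ), a < τ → 0 < Λ → 1024 * Λ ≤ D → 1024 ≤ h0 →
  k ≤ Λ * 2 ^ τ → ∀ (o : Fin k × Fin k → Finset (Fin S)), (∀ e, (o e).card ≤ 1) →
  (∑ ω : OmR k S τ, (((RHa Λ a o).filter fun e => suR a o ω e ∧
    (h0 < ((KC Λ a o e.1).filter fun c => cho (τ - a) ω e.1 c).card ∨
     D < ((RHa Λ a o).filter fun e' => e'.1 = e.1 ∧ suR a o ω e').card ∨
     D < ((RHa Λ a o).filter fun e' => e'.2 = e.2 ∧ suR a o ω e').card)).card : ℝ)) ≤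
    (Fintype.card (OmR k S τ) : ℕ) * ((((RHa Λ a o).card : ℕ) : ℝ) / 128 / 2 ^ τ)

/-- GNL: the expected gain in the light case: one coordinate for each pair. -/
def S_GNL : Prop := ∀ (k S m : ℕ) (o : Fin k × Fin k → Finset (Fin S)),
  (∀ e, (o e).card ≤ 1) → ∀ (G : Finset (Fin k × Fin k)) (w : Fin k × Fin k → ℝ),
  (open Classical in ∑ ω : OmL k S m, ∑ e ∈ G.filter (fun e => suL o ω e), w e) =
    (Fintype.card (OmL k S m) : ℕ) * ((∑ e ∈ G, w e) / ((m : ℝ) + 1))

open Classical in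
/-- LSL: the expected loss in the light case. Same proof as `S_LSR`: (1) the cells `c'` with row load `> Λ`
are different from the cell of the light pair `e`; there are at most `k / Λ ≤ m + 1` of them: number of
`(ω, c')` at most `(m+1) (m+1)^(-2)`, divided by `h0`; the same for the columns. (2) Row: `e' = e`, same
cell (at most `Λ` pairs of the row): `(m+1)^(-1)`; others: at most `k (m+1)^(-2) ≤ Λ (m+1)^(-1)`; sum at most
`(1 + 2 Λ) (m+1)^(-1) ≤ 3 Λ (m+1)^(-1)`, divided by `D`; the same for the columns. Total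
`(1 + 1 + 3 + 3) / 1024 = 1 / 128`. -/
def S_LSL : Prop := ∀ (k S m Λ D h0 : ℕ), 0 < Λ → 1024 * Λ ≤ D → 1024 ≤ h0 →
  k ≤ Λ * (m + 1) → ∀ (o : Fin k × Fin k → Finset (Fin S)), (∀ e, (o e).card ≤ 1) →
  (∑ ω : OmL k S m, (((LT Λ o).filter fun e => suL o ω e ∧
    (h0 < (univ.filter fun c => Λ < rl o e.1 c ∧ ω (Sum.inl c) = 0).card ∨
     h0 < (univ.filter fun c => Λ < cl o e.2 c ∧ ω (Sum.inl c) = 0).card ∨
     D < ((LT Λ o).filter fun e' => e'.1 = e.1 ∧ suL o ω e').card ∨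
     D < ((LT Λ o).filter fun e' => e'.2 = e.2 ∧ suL o ω e').card)).card : ℝ)) ≤
    (Fintype.card (OmL k S m) : ℕ) * ((((LT Λ o).card : ℕ) : ℝ) / 128 / ((m : ℝ) + 1))

section runs

variable {α A : Type} {k S V W r : ℕ}

/-- the run of the query `e` with at most one joint probe -/
def oo (q : Fin r → Fin k → Fin k → QAlg A S V W) (a a' : Fin r → Fin k → α → A → Fin W)
    (φ : (Fin k → α) × (Fin k → α) → Fin r) (T : ℕ) (J : (Fin k → α) × (Fin k → α) → Fin S → Fin V)
    (z : (Fin k → α) × (Fin k → α)) (e : Fin k × Fin k) : Option Bool × Finset (Fin S) :=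
  (q (φ z) e.1 e.2).run (J z) (a (φ z) e.1 (z.1 e.1)) (a' (φ z) e.2 (z.2 e.2)) T 1 ∅

/-- the cells read by the query -/
def cc (q : Fin r → Fin k → Fin k → QAlg A S V W) (a a' : Fin r → Fin k → α → A → Fin W)
    (φ : (Fin k → α) × (Fin k → α) → Fin r) (T : ℕ) (J : (Fin k → α) × (Fin k → α) → Fin S → Fin V)
    (z : (Fin k → α) × (Fin k → α)) (e : Fin k × Fin k) : Finset (Fin S) := (oo q a a' φ T J z e).2

/-- the weight of the pair `e` -/
noncomputable def ww (L ε : ℝ) (d : α → α → Bool)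
    (q : Fin r → Fin k → Fin k → QAlg A S V W) (a a' : Fin r → Fin k → α → A → Fin W)
    (φ : (Fin k → α) × (Fin k → α) → Fin r) (T : ℕ) (J : (Fin k → α) × (Fin k → α) → Fin S → Fin V)
    (z : (Fin k → α) × (Fin k → α)) (e : Fin k × Fin k) : ℝ :=
  wt2 L ε (d (z.1 e.1) (z.2 e.2) = true)
    ((oo q a a' φ T J z e).1 ≠ some (!(d (z.1 e.1) (z.2 e.2))))

/-- the bound for the restricted sums (from `JM.sc_all`) -/
def HSC [Fintype α] (L ε : ℝ) (d : α → α → Bool) (q : Fin r → Fin k → Fin k → QAlg A S V W)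
    (a a' : Fin r → Fin k → α → A → Fin W) (T D : ℕ) : Prop :=
  ∀ (P : Fin k × Fin k → Finset (Fin S) → Finset (Fin S) → Bool) (x : Fin r)
    (ρ : Fin S → Fin V) (H' : Finset (Fin S)) (E : Finset (Fin k × Fin k)),
    SC D (sg (q x) (a x) (a' x) T 1 P ρ H') (kg L ε d (q x) (a x) (a' x) T 1 P ρ H') E ≤
      2 * (Fintype.card ((Fin k → α) × (Fin k → α)) : ℕ)

end runs

open Classical in
/-- ADV: the main inequality with general advice `g z = (known contents, side information, good rows, good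
columns)`, at most `N` advices. Proof: copy of `JM.advice` (file `T2h38/JM/Adv.lean`), with `Γ` in place of the
set `H` and the hypotheses `hN`, `hag` in place of the code. (`sg`, `kg` with `P' e _ acc := P γ e acc` and
`H' = ∅`; `run_agree` with the set of all `c` with `ρ c = J z c`.) -/
def S_ADV : Prop := ∀ (α A Γ : Type) [Fintype α] [Nonempty α] (k S V W r : ℕ) (L ε : ℝ), 1 ≤ L →
  ∀ (d : α → α → Bool) (q : Fin r → Fin k → Fin k → QAlg A S V W)
    (a a' : Fin r → Fin k → α → A → Fin W) (φ : (Fin k → α) × (Fin k → α) → Fin r)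
    (T D : ℕ) (J : (Fin k → α) × (Fin k → α) → Fin S → Fin V), HSC L ε d q a a' T D →
  ∀ (P : Γ → Fin k × Fin k → Finset (Fin S) → Bool)
    (g : (Fin k → α) × (Fin k → α) → (Fin S → Fin V) × Γ × Finset (Fin k) × Finset (Fin k))
    (N : ℕ), (univ.image g).card ≤ N →
  (∀ z e acc, P (g z).2.1 e acc = true → ∀ c ∈ acc, (g z).1 c = J z c) →
  (∀ z, ∀ i ∈ (g z).2.2.1, (((g z).2.2.1 ×ˢ (g z).2.2.2).filter fun e : Fin k × Fin k =>
    e.1 = i ∧ P (g z).2.1 e (cc q a a' φ T J z e) = true).card ≤ D) →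
  (∀ z, ∀ j ∈ (g z).2.2.2, (((g z).2.2.1 ×ˢ (g z).2.2.2).filter fun e : Fin k × Fin k =>
    e.2 = j ∧ P (g z).2.1 e (cc q a a' φ T J z e) = true).card ≤ D) →
  ∑ z, ∑ e ∈ ((g z).2.2.1 ×ˢ (g z).2.2.2).filter
      (fun e => P (g z).2.1 e (cc q a a' φ T J z e) = true),
      Real.log (Real.exp (-ε) * kk L (1 / 2) d (oo q a a' φ T J z e).1 (z.1 e.1) (z.2 e.2)) ≤
    (Fintype.card ((Fin k → α) × (Fin k → α)) : ℕ) * Real.log (2 * ((N : ℝ) * r))

open Classical in
/-- CNR: the number of advices in the row case. Code: for every row a list of `h0` entries in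
`Option (Fin S × Fin V)` (see `JM.decode_surj`), and two sets. -/
def S_CNR : Prop := ∀ (Z : Type) [Fintype Z] (k S V h0 : ℕ) (v0 : Fin V) (J : Z → Fin S → Fin V)
  (C : Z → Fin k → Finset (Fin S)), (∀ z i, (C z i).card ≤ h0) →
  ∀ (R R' : Z → Finset (Fin k)),
  (univ.image fun z => ((fun c => if ∃ i, c ∈ C z i then J z c else v0 : Fin S → Fin V), C z, R z,
    R' z)).card ≤ (S * V + 1) ^ (k * h0) * (2 ^ k * 2 ^ k)

open Classical in
/-- CNL: the number of advices in the light case: contents on the fixed set `C0`, for every row and every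
column a set of at most `h0` cells, two sets. -/
def S_CNL : Prop := ∀ (Z : Type) [Fintype Z] (k S V h0 : ℕ) (v0 : Fin V) (J : Z → Fin S → Fin V)
  (C0 : Finset (Fin S)) (C C' : Z → Fin k → Finset (Fin S)), (∀ z i, (C z i).card ≤ h0) →
  (∀ z i, (C' z i).card ≤ h0) → ∀ (R R' : Z → Finset (Fin k)),
  (univ.image fun z => ((fun c => if c ∈ C0 then J z c else v0 : Fin S → Fin V), (C z, C' z), R z,
    R' z)).card ≤ V ^ C0.card * ((S + 1) ^ (k * h0) * (S + 1) ^ (k * h0)) * (2 ^ k * 2 ^ k)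

/-- WGT: bounds for the weight. Proof: see `hwL`, `hwlog` in `JM.coin_ineq` (file `T2h38/JM/Coin.lean`). -/
def S_WGT : Prop := ∀ (α A : Type) (k S V W r : ℕ) (L ε : ℝ), 1 < L → 0 ≤ ε →
  ∀ (d : α → α → Bool) (q : Fin r → Fin k → Fin k → QAlg A S V W)
    (a a' : Fin r → Fin k → α → A → Fin W) (φ : (Fin k → α) × (Fin k → α) → Fin r)
    (T : ℕ) (J : (Fin k → α) × (Fin k → α) → Fin S → Fin V) z e,
  (ww L ε d q a a' φ T J z e ≤ Real.log L) ∧
  (ww L ε d q a a' φ T J z e ≤ Real.log (Real.exp (-ε) *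
    kk L (1 / 2) d (oo q a a' φ T J z e).1 (z.1 e.1) (z.2 e.2)))

/-- ROA: the row inequality at scale `a`.
Proof. Fix `ω : OmR k S τ`. `Ch z i = (KC (cc z) i).filter (cho (τ - a) ω i)`, replaced by `∅` if it has
more than `h0` elements. Good rows `R z`: `Ch` has at most `h0` elements and at most `D` pairs `e` of `RHa`
in the row satisfy `suR`; good columns: at most `D` pairs of `RHa` in the column satisfy `suR`. `Γ = Fin k →
Finset (Fin S)`, `P γ e acc = decide (acc.Nonempty ∧ acc ⊆ γ e.1 ∧ thi a ω e)`; for `e` in a good row `P` holds iff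
`e ∈ RHa` and `suR` (as `cc` has at most one element: `JM.run_card`). Known contents: `J z c` if `c` is in
some `Ch z i`, else `v0`. `S_ADV` and `S_CNR` give `∑_z (∑_{e ∈ RHa, suR} ww - log L * #lost) ≤ Zc * log (2 N r)`
(`S_WGT`; see `hsample` in `JM.coin_ineq`). Sum over all `ω` and use `S_GNR`, `S_LSR`. -/
def S_ROA : Prop := S_ADV → S_CNR → S_WGT → S_GNR → S_LSR →
  ∀ (α A : Type) [Fintype α] [Nonempty α] (k S V W r : ℕ) (L ε : ℝ), 1 < L → 0 ≤ ε →
  ∀ (d : α → α → Bool) (q : Fin r → Fin k → Fin k → QAlg A S V W)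
    (a a' : Fin r → Fin k → α → A → Fin W) (φ : (Fin k → α) × (Fin k → α) → Fin r)
    (T D : ℕ) (_ : Fin V) (J : (Fin k → α) × (Fin k → α) → Fin S → Fin V), HSC L ε d q a a' T D →
  ∀ (Λ τ b h0 : ℕ), b < τ → 0 < Λ → 1024 * Λ ≤ D → 1024 ≤ h0 → k ≤ Λ * 2 ^ τ → 1 ≤ k →
  ∑ z, ∑ e ∈ RHa Λ b (cc q a a' φ T J z), ww L ε d q a a' φ T J z e ≤
    Real.log L / 128 * (∑ z, (((RHa Λ b (cc q a a' φ T J z)).card : ℕ) : ℝ)) +
    2 ^ τ * ((Fintype.card ((Fin k → α) × (Fin k → α)) : ℕ) *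
      (Real.log 2 + k * h0 * Real.log ((S : ℝ) * V + 1) + 2 * k * Real.log 2 + Real.log r))

/-- ROW: all scales. Proof: if `k ≤ Λ 2^τ` then `RH` is the disjoint union of the `RHa` with `a < τ`
(for one cell: `card ≤ 1` by `JM.run_card`), and the `RHa` have together at most `k²` elements. -/
def S_ROW : Prop := S_ROA → S_ADV → S_CNR → S_WGT → S_GNR → S_LSR →
  ∀ (α A : Type) [Fintype α] [Nonempty α] (k S V W r : ℕ) (L ε : ℝ), 1 < L → 0 ≤ ε →
  ∀ (d : α → α → Bool) (q : Fin r → Fin k → Fin k → QAlg A S V W)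
    (a a' : Fin r → Fin k → α → A → Fin W) (φ : (Fin k → α) × (Fin k → α) → Fin r)
    (T D : ℕ) (_ : Fin V) (J : (Fin k → α) × (Fin k → α) → Fin S → Fin V), HSC L ε d q a a' T D →
  ∀ (Λ τ h0 : ℕ), 0 < Λ → 1024 * Λ ≤ D → 1024 ≤ h0 → k ≤ Λ * 2 ^ τ → 1 ≤ k →
  ∑ z, ∑ e ∈ RH Λ (cc q a a' φ T J z), ww L ε d q a a' φ T J z e ≤
    (Fintype.card ((Fin k → α) × (Fin k → α)) : ℕ) * (Real.log L / 128 * (k : ℝ) ^ 2 +
      τ * 2 ^ τ * (Real.log 2 + k * h0 * Real.log ((S : ℝ) * V + 1) + 2 * k * Real.log 2 +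
        Real.log r))

/-- the statement of `S_ROW` for the row inequality, as a property -/
def RowIneq : Prop := ∀ (α A : Type) [Fintype α] [Nonempty α] (k S V W r : ℕ) (L ε : ℝ), 1 < L → 0 ≤ ε →
  ∀ (d : α → α → Bool) (q : Fin r → Fin k → Fin k → QAlg A S V W)
    (a a' : Fin r → Fin k → α → A → Fin W) (φ : (Fin k → α) × (Fin k → α) → Fin r)
    (T D : ℕ) (_ : Fin V) (J : (Fin k → α) × (Fin k → α) → Fin S → Fin V), HSC L ε d q a a' T D →
  ∀ (Λ τ h0 : ℕ), 0 < Λ → 1024 * Λ ≤ D → 1024 ≤ h0 → k ≤ Λ * 2 ^ τ → 1 ≤ k →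
  ∑ z, ∑ e ∈ RH Λ (cc q a a' φ T J z), ww L ε d q a a' φ T J z e ≤
    (Fintype.card ((Fin k → α) × (Fin k → α)) : ℕ) * (Real.log L / 128 * (k : ℝ) ^ 2 +
      τ * 2 ^ τ * (Real.log 2 + k * h0 * Real.log ((S : ℝ) * V + 1) + 2 * k * Real.log 2 +
        Real.log r))

/-- the query with the roles of the two sets exchanged -/
def swp {A : Type} {S V W : ℕ} : QAlg A S V W → QAlg A S V W
  | .out c => .out c
  | .read s a k => .read (!s) a fun v => swp (k v)
  | .probe c k => .probe c fun v => swp (k v)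

/-- SWP: exchange of the two sides. Proof: induction on the algorithm. -/
def S_SWP : Prop := ∀ (A : Type) (S V W : ℕ) (q : QAlg A S V W) (J : Fin S → Fin V) (u v : A → Fin W)
  (T t : ℕ) (acc : Finset (Fin S)), (swp q).run J u v T t acc = q.run J v u T t acc

/-- COL: the column inequality, from the row inequality for the exchanged structure `q' x i j = swp (q x j i)`,
`a`, `a'` exchanged, `φ' z = φ z.swap`, `J' z = J z.swap`, `d' x y = d y x` (`S_SWP`); the second `HSC`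
hypothesis is the one for the exchanged structure. Reindex the sum over `z` by `Prod.swap` and the sum over
`e` by `Prod.swap` (`CH` of `cc` is the swap of `RH` of the exchanged one). -/
def S_COL : Prop := S_SWP → RowIneq →
  ∀ (α A : Type) [Fintype α] [Nonempty α] (k S V W r : ℕ) (L ε : ℝ), 1 < L → 0 ≤ ε →
  ∀ (d : α → α → Bool) (q : Fin r → Fin k → Fin k → QAlg A S V W)
    (a a' : Fin r → Fin k → α → A → Fin W) (φ : (Fin k → α) × (Fin k → α) → Fin r)
    (T D : ℕ) (_ : Fin V) (J : (Fin k → α) × (Fin k → α) → Fin S → Fin V),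
  HSC L ε (fun x y => d y x) (fun x i j => swp (q x j i)) a' a T D →
  ∀ (Λ τ h0 : ℕ), 0 < Λ → 1024 * Λ ≤ D → 1024 ≤ h0 → k ≤ Λ * 2 ^ τ → 1 ≤ k →
  ∑ z, ∑ e ∈ CH Λ (cc q a a' φ T J z), ww L ε d q a a' φ T J z e ≤
    (Fintype.card ((Fin k → α) × (Fin k → α)) : ℕ) * (Real.log L / 128 * (k : ℝ) ^ 2 +
      τ * 2 ^ τ * (Real.log 2 + k * h0 * Real.log ((S : ℝ) * V + 1) + 2 * k * Real.log 2 +
        Real.log r))

/-- LIG: the light pairs.
Proof. As `S_ROA`, with `ω : OmL k S m` and `C0 = {c | ω (inl c) = 0}`: the advice contains the contents on `C0`, for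
every row `i` the set `C z i = {c ∈ C0 | Λ < rl i c}` (replaced by `∅` if it has more than `h0` elements), for every
column the set `C' z j` of the `c ∈ C0` with `Λ < cl j c` (likewise), good rows (the set has at most `h0` elements
and at most `D` light pairs of the row satisfy `suL`) and good columns. `P (γ, γ') e acc` says
`acc ⊆ C0`, `acc` is disjoint from `γ e.1` and `γ' e.2`, and `ω (inr e) = 0` if `acc = ∅`. For `e` in a good row
and a good column `P` holds iff `e` is light and `suL`. `S_ADV`, `S_CNL`, `S_WGT`, then sum over `ω`, `S_GNL`, `S_LSL`;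
the sum over `ω` of `C0.card` is `card OmL * (S / (m + 1))` (see the end of `JM.coin_ineq`). -/
def S_LIG : Prop := S_ADV → S_CNL → S_WGT → S_GNL → S_LSL →
  ∀ (α A : Type) [Fintype α] [Nonempty α] (k S V W r : ℕ) (L ε : ℝ), 1 < L → 0 ≤ ε →
  ∀ (d : α → α → Bool) (q : Fin r → Fin k → Fin k → QAlg A S V W)
    (a a' : Fin r → Fin k → α → A → Fin W) (φ : (Fin k → α) × (Fin k → α) → Fin r)
    (T D : ℕ) (_ : Fin V) (J : (Fin k → α) × (Fin k → α) → Fin S → Fin V), HSC L ε d q a a' T D →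
  ∀ (Λ m h0 : ℕ), 0 < Λ → 1024 * Λ ≤ D → 1024 ≤ h0 → k ≤ Λ * (m + 1) → 1 ≤ k →
  ∑ z, ∑ e ∈ LT Λ (cc q a a' φ T J z), ww L ε d q a a' φ T J z e ≤
    (Fintype.card ((Fin k → α) × (Fin k → α)) : ℕ) * (Real.log L / 128 * (k : ℝ) ^ 2 +
      S * Real.log V + ((m : ℝ) + 1) * (Real.log 2 + 2 * (k * h0 * Real.log ((S : ℝ) + 1)) +
        2 * k * Real.log 2 + Real.log r))

/-- ALL: all pairs, for fixed coins, with the sum of the negative parts. Proof: for every `z`, `e`, with the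
indicators `l`, `r`, `c` of `LT`, `RH`, `CH`: `w ≤ l w + r w + c w + w⁻`, `w⁻ = (log L + log 2) [bad] + ε`. -/
def S_ALL : Prop := ∀ (α A : Type) [Fintype α] [Nonempty α] (k S V W r : ℕ) (L ε : ℝ), 1 < L → 0 ≤ ε →
  ∀ (d : α → α → Bool) (q : Fin r → Fin k → Fin k → QAlg A S V W)
    (a a' : Fin r → Fin k → α → A → Fin W) (φ : (Fin k → α) × (Fin k → α) → Fin r)
    (T Λ : ℕ) (J : (Fin k → α) × (Fin k → α) → Fin S → Fin V) (B1 B2 B3 : ℝ),
  ∑ z, ∑ e ∈ LT Λ (cc q a a' φ T J z), ww L ε d q a a' φ T J z e ≤ B1 →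
  ∑ z, ∑ e ∈ RH Λ (cc q a a' φ T J z), ww L ε d q a a' φ T J z e ≤ B2 →
  ∑ z, ∑ e ∈ CH Λ (cc q a a' φ T J z), ww L ε d q a a' φ T J z e ≤ B3 →
  ∑ z, ∑ e, (ww L ε d q a a' φ T J z e - (open Classical in
      (if (oo q a a' φ T J z e).1 ≠ some (!(d (z.1 e.1) (z.2 e.2))) then Real.log L + Real.log 2
        else 0))) ≤
    B1 + B2 + B3 + (Fintype.card ((Fin k → α) × (Fin k → α)) : ℕ) * ((k : ℝ) ^ 2 * ε)

/-- NUM: the numbers. `hm` is the inequality of the proof after division by the number of the inputs;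
`L = 1 + 1/160`, `ε = 1/4000`, `h0 = 1024`, `Λ = D / 1024`, `2 ^ τ` is the least power of two with `k ≤ Λ 2^τ`.
Proof: `log L / 4 - 2 (log L + log 2) / 200000 - 2 / 4000 - 3 log L / 128 ≥ 0.0008` (`log L ≥ 0.0062`:
`Real.add_one_le_exp` or `Real.one_sub_inv_le_log_of_pos`), `Λ ≥ D / 2048`, `2 ^ τ ≤ 4096 k / D`, `τ ≤ l`,
`log (S V + 1) ≤ (l + w + 1) log 2`; by the lower bound for `D` the terms without `r`, `S` on the right
are at most `0.0004 k²`. So `S w log 2 ≥ 0.0002 k²` or `(2 τ + 1) 2 ^ τ r log 2 ≥ 0.0002 k²`. -/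
def S_NUM : Prop := ∀ (k D w l S r Λ τ : ℕ), 1 ≤ k → D ≤ k → k ≤ 2 ^ l → S ≤ 2 ^ l →
  2 ^ 40 * ((l + 1) * (l + w + 1)) ≤ D → Λ = D / 1024 → k ≤ Λ * 2 ^ τ → Λ * 2 ^ τ ≤ 2 * k →
  (k : ℝ) ^ 2 * (Real.log (1 + 1 / 160) / 4 -
      2 * ((Real.log (1 + 1 / 160) + Real.log 2) / 200000) - 2 * (1 / 4000)) ≤
    3 * (Real.log (1 + 1 / 160) / 128 * (k : ℝ) ^ 2) +
    S * Real.log ((2 ^ w : ℕ) : ℝ) + (2 : ℝ) ^ τ * (Real.log 2 + 2 * (k * 1024 * Real.log ((S : ℝ) + 1)) +
        2 * k * Real.log 2 + Real.log ((2 ^ r : ℕ) : ℝ)) +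
    2 * (τ * 2 ^ τ * (Real.log 2 + k * 1024 * Real.log ((S : ℝ) * ((2 ^ w : ℕ) : ℝ) + 1) +
      2 * k * Real.log 2 + Real.log ((2 ^ r : ℕ) : ℝ))) →
  k * D ≤ 2 ^ 26 * (l + 1) * r ∨ k ^ 2 ≤ 2 ^ 13 * (S * w)

end Pool.Agent.T2h38.OP
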