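import Pool.Agent.T2h38.OP.Stm

set_option autoImplicit false

namespace Pool.Agent.T2h38.OP

open Finset Pool.Agent.T2h38.JM

theorem t_ALL : S_ALL := by
  intro α A _ _ k S V W r L ε hL hε d q a a' φ T Λ J B1 B2 B3 h1 h2 h3
  classical
  have hl : 0 < Real.log L := Real.log_pos hL
  have hl2 : 0 < Real.log 2 := Real.log_pos (by norm_num)
  have hpt : ∀ (z : (Fin k → α) × (Fin k → α)) (e : Fin k × Fin k),
      (ww L ε d q a a' φ T J z e - (open Classical in
        (if (oo q a a' φ T J z e).1 ≠ some (!(d (z.1 e.1) (z.2 e.2))) then Real.log L + Real.log 2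
          else 0))) ≤
      (if e ∈ LT Λ (cc q a a' φ T J z) then ww L ε d q a a' φ T J z e else 0) +
      (if e ∈ RH Λ (cc q a a' φ T J z) then ww L ε d q a a' φ T J z e else 0) +
      (if e ∈ CH Λ (cc q a a' φ T J z) then ww L ε d q a a' φ T J z e else 0) + ε := by
    intro z e
    have hw : ww L ε d q a a' φ T J z e + (open Classical in
        (if (oo q a a' φ T J z e).1 ≠ some (!(d (z.1 e.1) (z.2 e.2))) then Real.log L + Real.log 2
          else 0)) + ε = (if d (z.1 e.1) (z.2 e.2) = true then Real.log L else 0) := by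
      unfold ww wt2
      split_ifs <;> ring
    have hw0 : (0 : ℝ) ≤ (if d (z.1 e.1) (z.2 e.2) = true then Real.log L else 0) := by
      split_ifs <;> linarith
    have hb0 : (0 : ℝ) ≤ (open Classical in
        (if (oo q a a' φ T J z e).1 ≠ some (!(d (z.1 e.1) (z.2 e.2))) then Real.log L + Real.log 2
          else 0)) := by
      split_ifs <;> linarith
    set w := ww L ε d q a a' φ T J z e
    set bd := (open Classical in
        (if (oo q a a' φ T J z e).1 ≠ some (!(d (z.1 e.1) (z.2 e.2))) then Real.log L + Real.log 2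
          else 0))
    by_cases c1 : e ∈ LT Λ (cc q a a' φ T J z)
    · have c2 : e ∉ RH Λ (cc q a a' φ T J z) ∪ CH Λ (cc q a a' φ T J z) := by
        unfold LT at c1
        exact (Finset.mem_sdiff.1 c1).2
      rw [Finset.mem_union, not_or] at c2
      rw [if_pos c1, if_neg c2.1, if_neg c2.2]
      linarith
    · have c2 : e ∈ RH Λ (cc q a a' φ T J z) ∪ CH Λ (cc q a a' φ T J z) := by
        unfold LT at c1
        by_contra hc
        exact c1 (Finset.mem_sdiff.2 ⟨Finset.mem_univ _, hc⟩)
      rw [if_neg c1]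
      rcases Finset.mem_union.1 c2 with c3 | c3
      · rw [if_pos c3]
        split_ifs <;> linarith
      · rw [if_pos c3]
        split_ifs <;> linarith
  calc ∑ z, ∑ e, (ww L ε d q a a' φ T J z e - (open Classical in
        (if (oo q a a' φ T J z e).1 ≠ some (!(d (z.1 e.1) (z.2 e.2))) then Real.log L + Real.log 2
          else 0)))
      ≤ ∑ z : (Fin k → α) × (Fin k → α), ∑ e : Fin k × Fin k,
        ((if e ∈ LT Λ (cc q a a' φ T J z) then ww L ε d q a a' φ T J z e else 0) +
        (if e ∈ RH Λ (cc q a a' φ T J z) then ww L ε d q a a' φ T J z e else 0) +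
        (if e ∈ CH Λ (cc q a a' φ T J z) then ww L ε d q a a' φ T J z e else 0) + ε) :=
        Finset.sum_le_sum fun z _ => Finset.sum_le_sum fun e _ => hpt z e
    _ = ∑ z, ∑ e ∈ LT Λ (cc q a a' φ T J z), ww L ε d q a a' φ T J z e +
        ∑ z, ∑ e ∈ RH Λ (cc q a a' φ T J z), ww L ε d q a a' φ T J z e +
        ∑ z, ∑ e ∈ CH Λ (cc q a a' φ T J z), ww L ε d q a a' φ T J z e +
        (Fintype.card ((Fin k → α) × (Fin k → α)) : ℕ) * ((k : ℝ) ^ 2 * ε) := by
        simp only [Finset.sum_add_distrib, Finset.sum_ite_mem, Finset.univ_inter]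
        congr 1
        rw [Finset.sum_const, Finset.sum_const, Finset.card_univ, Finset.card_univ, nsmul_eq_mul,
          nsmul_eq_mul, Fintype.card_prod (Fin k) (Fin k), Fintype.card_fin]
        push_cast
        ring
    _ ≤ _ := by linarith

end Pool.Agent.T2h38.OP
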