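import Pool.Agent.T2h38.OP.T_CNR

/-! (CNL): the number of advices in the light case (helper54). -/

set_option autoImplicit false

namespace Pool.Agent.T2h38.OP

open Finset

open Classical in
theorem t_CNL : S_CNL := by
  intro Z _ k S V h0 v0 J C0 C C' hC hC' R R'
  have key := CNR.card_image_le_code
    (X := ((C0 → Fin V) × ((Fin k → Fin h0 → Option (Fin S)) × (Fin k → Fin h0 → Option (Fin S)))) ×
      Finset (Fin k) × Finset (Fin k))
    (fun z => ((fun c => if c ∈ C0 then J z c else v0 : Fin S → Fin V), (C z, C' z), R z, R' z))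
    (fun x => ((fun c => if h : c ∈ C0 then x.1.1 ⟨c, h⟩ else v0),
      ((fun i => univ.filter fun c => ∃ j, x.1.2.1 i j = some c),
       (fun i => univ.filter fun c => ∃ j, x.1.2.2 i j = some c)), x.2.1, x.2.2)) ?_
  · refine key.trans (le_of_eq ?_)
    simp only [Fintype.card_prod, Fintype.card_pi, Finset.prod_const, Finset.card_univ,
      Fintype.card_fin, Fintype.card_option, Fintype.card_finset, Fintype.card_coe]
    rw [← pow_mul, Nat.mul_comm h0 k]
  · intro z
    choose l hl using fun i => CNR.lst (C z i) h0 (hC z i)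
    choose l' hl' using fun i => CNR.lst (C' z i) h0 (hC' z i)
    refine ⟨((fun c => J z c.1, l, l'), R z, R' z), ?_⟩
    simp only [Prod.mk.injEq, and_true]
    refine ⟨?_, ?_, ?_⟩
    · funext c
      by_cases h1 : c ∈ C0
      · rw [dif_pos h1, if_pos h1]
      · rw [dif_neg h1, if_neg h1]
    · funext i
      ext c
      rw [mem_filter, hl i c]
      exact ⟨fun h => h.2, fun h => ⟨mem_univ _, h⟩⟩
    · funext i
      ext c
      rw [mem_filter, hl' i c]
      exact ⟨fun h => h.2, fun h => ⟨mem_univ _, h⟩⟩

end Pool.Agent.T2h38.OP
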