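import Pool.Agent.T2h38.OP.Stm

/-! (CNR) and (CNL): the number of advices (helper54). -/

set_option autoImplicit false

namespace Pool.Agent.T2h38.OP

open Finset

namespace CNR

/-- a finite set with at most `h` elements as a list of length `h` of options -/
theorem lst {A : Type} [DecidableEq A] (H : Finset A) (h : ℕ) (hH : H.card ≤ h) :
    ∃ l : Fin h → Option A, ∀ c, c ∈ H ↔ ∃ i, l i = some c := by
  classical
  refine ⟨fun i => if hi : i.1 < H.card then some (H.equivFin.symm ⟨i.1, hi⟩).1 else none, ?_⟩
  intro c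
  constructor
  · intro hc
    set m := H.equivFin ⟨c, hc⟩ with hm
    refine ⟨⟨m.1, lt_of_lt_of_le m.2 hH⟩, ?_⟩
    simp only
    rw [dif_pos m.2]
    have : H.equivFin.symm ⟨m.1, m.2⟩ = ⟨c, hc⟩ := by
      rw [show (⟨m.1, m.2⟩ : Fin H.card) = m from rfl, hm, Equiv.symm_apply_apply]
    rw [this]
  · rintro ⟨i, hi⟩
    simp only at hi
    split_ifs at hi with h2
    rw [Option.some.injEq] at hi
    rw [← hi]
    exact (H.equivFin.symm ⟨i.1, h2⟩).2

/-- the image of `g` has at most as many elements as a type from which `g` can be decoded -/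
theorem card_image_le_code {Z X Y : Type} [Fintype Z] [Fintype X] [DecidableEq Y] (g : Z → Y)
    (dec : X → Y) (h : ∀ z, ∃ x, dec x = g z) : (univ.image g).card ≤ Fintype.card X := by
  calc (univ.image g).card ≤ (univ.image dec).card := by
        refine Finset.card_le_card ?_
        intro y hy
        rw [mem_image] at hy
        obtain ⟨z, _, rfl⟩ := hy
        obtain ⟨x, hx⟩ := h z
        rw [← hx]
        exact mem_image_of_mem _ (mem_univ _)
    _ ≤ Fintype.card X := by
        rw [← Finset.card_univ]
        exact Finset.card_image_le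

end CNR

open Classical in
theorem t_CNR : S_CNR := by
  intro Z _ k S V h0 v0 J C hC R R'
  have key := CNR.card_image_le_code
    (X := (Fin k → Fin h0 → Option (Fin S × Fin V)) × Finset (Fin k) × Finset (Fin k))
    (fun z => ((fun c => if ∃ i, c ∈ C z i then J z c else v0 : Fin S → Fin V), C z, R z, R' z))
    (fun x => ((fun c => if h : ∃ v, ∃ i j, x.1 i j = some (c, v) then h.choose else v0),
      (fun i => univ.filter fun c => ∃ j v, x.1 i j = some (c, v)), x.2.1, x.2.2)) ?_
  · refine key.trans (le_of_eq ?_)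
    simp only [Fintype.card_prod, Fintype.card_pi, Finset.prod_const, Finset.card_univ,
      Fintype.card_fin, Fintype.card_option, Fintype.card_finset]
    rw [← pow_mul, Nat.mul_comm h0 k]
  · intro z
    choose l hl using fun i => CNR.lst ((C z i).image fun c => (c, J z c)) h0
      (Finset.card_image_le.trans (hC z i))
    have hl' : ∀ i c v, (∃ j, l i j = some (c, v)) ↔ (c ∈ C z i ∧ v = J z c) := by
      intro i c v
      rw [← hl i (c, v), mem_image]
      constructor
      · rintro ⟨c', hc', h⟩
        rw [Prod.mk.injEq] at h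
        obtain ⟨rfl, rfl⟩ := h
        exact ⟨hc', rfl⟩
      · rintro ⟨h1, rfl⟩
        exact ⟨c, h1, rfl⟩
    refine ⟨(l, R z, R' z), ?_⟩
    simp only [Prod.mk.injEq, and_true]
    constructor
    · funext c
      by_cases h1 : ∃ i, c ∈ C z i
      · have h2 : ∃ v, ∃ i j, l i j = some (c, v) := by
          obtain ⟨i, hi⟩ := h1
          obtain ⟨j, hj⟩ := (hl' i c (J z c)).2 ⟨hi, rfl⟩
          exact ⟨_, i, j, hj⟩
        rw [dif_pos h2, if_pos h1]
        obtain ⟨i, j, hj⟩ := h2.choose_spec
        exact ((hl' i c _).1 ⟨j, hj⟩).2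
      · have h2 : ¬ ∃ v, ∃ i j, l i j = some (c, v) := by
          rintro ⟨v, i, j, hj⟩
          exact h1 ⟨i, ((hl' i c v).1 ⟨j, hj⟩).1⟩
        rw [dif_neg h2, if_neg h1]
    · funext i
      ext c
      rw [mem_filter]
      constructor
      · rintro ⟨_, j, v, hj⟩
        exact ((hl' i c v).1 ⟨j, hj⟩).1
      · intro hc
        obtain ⟨j, hj⟩ := (hl' i c (J z c)).2 ⟨hc, rfl⟩
        exact ⟨mem_univ _, j, _, hj⟩

end Pool.Agent.T2h38.OP
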