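import Pool.Agent.T2h38.OP.Stm

/-! COL: the column inequality from the row inequality for the exchanged structure. -/

set_option autoImplicit false

namespace Pool.Agent.T2h38.OP

open Finset Pool.Agent.T2h38.JM

namespace COL

variable {α A : Type} {k S V W r : ℕ}

theorem oo_swap (hswp : S_SWP) (q : Fin r → Fin k → Fin k → QAlg A S V W)
    (a a' : Fin r → Fin k → α → A → Fin W)
    (φ : (Fin k → α) × (Fin k → α) → Fin r) (T : ℕ) (J : (Fin k → α) × (Fin k → α) → Fin S → Fin V)
    (z : (Fin k → α) × (Fin k → α)) (e : Fin k × Fin k) :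
    oo (fun x i j => swp (q x j i)) a' a (fun z => φ z.swap) T (fun z => J z.swap) z e =
      oo q a a' φ T J z.swap e.swap := by
  unfold oo
  rw [hswp]
  rfl

theorem cc_swap (hswp : S_SWP) (q : Fin r → Fin k → Fin k → QAlg A S V W)
    (a a' : Fin r → Fin k → α → A → Fin W)
    (φ : (Fin k → α) × (Fin k → α) → Fin r) (T : ℕ) (J : (Fin k → α) × (Fin k → α) → Fin S → Fin V)
    (z : (Fin k → α) × (Fin k → α)) (e : Fin k × Fin k) :
    cc (fun x i j => swp (q x j i)) a' a (fun z => φ z.swap) T (fun z => J z.swap) z e =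
      cc q a a' φ T J z.swap e.swap := by
  unfold cc
  rw [oo_swap hswp]

theorem ww_swap (hswp : S_SWP) (L ε : ℝ) (d : α → α → Bool)
    (q : Fin r → Fin k → Fin k → QAlg A S V W) (a a' : Fin r → Fin k → α → A → Fin W)
    (φ : (Fin k → α) × (Fin k → α) → Fin r) (T : ℕ) (J : (Fin k → α) × (Fin k → α) → Fin S → Fin V)
    (z : (Fin k → α) × (Fin k → α)) (e : Fin k × Fin k) :
    ww L ε (fun x y => d y x) (fun x i j => swp (q x j i)) a' a (fun z => φ z.swap) T
      (fun z => J z.swap) z e = ww L ε d q a a' φ T J z.swap e.swap := by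
  unfold ww
  rw [oo_swap hswp]
  rfl

theorem mem_swap (hswp : S_SWP) (Λ : ℕ) (q : Fin r → Fin k → Fin k → QAlg A S V W)
    (a a' : Fin r → Fin k → α → A → Fin W)
    (φ : (Fin k → α) × (Fin k → α) → Fin r) (T : ℕ) (J : (Fin k → α) × (Fin k → α) → Fin S → Fin V)
    (z : (Fin k → α) × (Fin k → α)) (e : Fin k × Fin k) :
    e ∈ RH Λ (cc (fun x i j => swp (q x j i)) a' a (fun z => φ z.swap) T (fun z => J z.swap) z) ↔
      e.swap ∈ CH Λ (cc q a a' φ T J z.swap) := by
  unfold RH CH
  rw [Finset.mem_filter, Finset.mem_filter]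
  simp only [Finset.mem_univ, true_and, cc_swap hswp, Prod.snd_swap]
  have h : ∀ c, rl (cc (fun x i j => swp (q x j i)) a' a (fun z => φ z.swap) T
      (fun z => J z.swap) z) e.1 c = cl (cc q a a' φ T J z.swap) e.1 c := by
    intro c
    unfold rl cl
    simp only [cc_swap hswp, Prod.swap_prod_mk]
  simp only [h]

end COL

theorem t_COL : S_COL := by
  intro hswp hrow α A _ _ k S V W r L ε hL hε d q a a' φ T D v0 J hsc Λ τ h0 hΛ hD hh hk hk1
  have h := hrow α A k S V W r L ε hL hε (fun x y => d y x) (fun x i j => swp (q x j i)) a' a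
    (fun z => φ z.swap) T D v0 (fun z => J z.swap) hsc Λ τ h0 hΛ hD hh hk hk1
  refine le_trans (le_of_eq ?_) h
  rw [← Equiv.sum_comp (Equiv.prodComm (Fin k → α) (Fin k → α))]
  refine Finset.sum_congr rfl fun z _ => ?_
  refine Finset.sum_bij' (fun e _ => e.swap) (fun e _ => e.swap) ?_ ?_ ?_ ?_ ?_
  · intro e he
    rw [COL.mem_swap hswp, Prod.swap_swap]
    exact he
  · intro e he
    exact (COL.mem_swap hswp Λ q a a' φ T J z e).1 he
  · intro e _
    exact Prod.swap_swap e
  · intro e _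
    exact Prod.swap_swap e
  · intro e _
    rw [COL.ww_swap hswp, Prod.swap_swap]
    rfl

end Pool.Agent.T2h38.OP
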