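import Pool.Agent.T2h38.OP.Stm

/-! Project OP: the expected gain in the light case. -/

set_option autoImplicit false

namespace Pool.Agent.T2h38.OP

open Finset Pool.Agent.T2h38.JM

open Classical in
theorem GNL.sum_gain {U P : Type} [Fintype U] [DecidableEq U] (m t : ℕ) (G : Finset P)
    (Q : (U → Fin (m + 1)) → P → Prop) (B : P → Finset U) (hB : ∀ e ∈ G, (B e).card = t)
    (hQ : ∀ e ∈ G, ∀ ω, Q ω e ↔ ∀ y ∈ B e, ω y = 0) (w : P → ℝ) :
    ∑ ω : U → Fin (m + 1), ∑ e ∈ G.filter (fun e => Q ω e), w e =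
      (Fintype.card (U → Fin (m + 1)) : ℕ) * ((∑ e ∈ G, w e) / ((m : ℝ) + 1) ^ t) := by
  have hm : (0 : ℝ) < (m : ℝ) + 1 := by positivity
  have hp : ((m : ℝ) + 1) ^ t ≠ 0 := (pow_pos hm _).ne'
  have h0 : ∀ ω : U → Fin (m + 1), ∑ e ∈ G.filter (fun e => Q ω e), w e =
      ∑ e ∈ G, w e * (if ∀ y ∈ B e, ω y = 0 then (1 : ℝ) else 0) := by
    intro ω
    rw [Finset.sum_filter]
    refine Finset.sum_congr rfl fun e he => ?_
    by_cases h : Q ω e
    · rw [if_pos h, if_pos ((hQ e he ω).1 h), mul_one]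
    · rw [if_neg h, if_neg (fun h' => h ((hQ e he ω).2 h')), mul_zero]
  simp_rw [h0]
  rw [Finset.sum_comm, Finset.sum_div, Finset.mul_sum]
  refine Finset.sum_congr rfl fun e he => ?_
  rw [← Finset.mul_sum]
  have h1 := count_zero m (B e)
  rw [hB e he] at h1
  have h3 : (∑ ω : U → Fin (m + 1), if ∀ y ∈ B e, ω y = 0 then (1 : ℝ) else 0) =
      (Fintype.card (U → Fin (m + 1)) : ℕ) / ((m : ℝ) + 1) ^ t := by
    rw [eq_div_iff hp, mul_comm]
    exact h1
  rw [h3]
  ring

theorem t_GNL : S_GNL := by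
  classical
  intro k S m o ho G w
  have h := GNL.sum_gain (U := Fin S ⊕ (Fin k × Fin k)) (P := Fin k × Fin k) m 1 G
    (fun ω e => suL o ω e)
    (fun e => if o e = ∅ then {Sum.inr e} else (o e).image Sum.inl) (fun e _ => by
      by_cases h : o e = ∅
      · simp only [if_pos h, card_singleton]
      · simp only [if_neg h]
        rw [card_image_of_injective _ Sum.inl_injective]
        have h1 := ho e
        have h2 : 0 < (o e).card := card_pos.2 (nonempty_iff_ne_empty.2 h)
        omega) (fun e _ ω => by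
      unfold suL
      by_cases h : o e = ∅
      · simp [h]
      · simp [h]) w
  rw [pow_one] at h
  exact h

end Pool.Agent.T2h38.OP
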