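import Pool.Agent.T2h38.OP.T_GNL

/-! Project OP: the expected gain in the row case. -/

set_option autoImplicit false

namespace Pool.Agent.T2h38.OP

open Finset Pool.Agent.T2h38.JM

theorem t_GNR : S_GNR := by
  classical
  intro k S τ Λ a ha o ho w
  have hc1 : ∀ v : ℕ, v ≤ τ → ((univ : Finset (Fin τ)).filter fun b => b.1 < v).card = v := by
    intro v hv
    have h1 : ((univ : Finset (Fin τ)).filter fun b => b.1 < v).card =
        (Finset.range v).card := by
      refine card_bij (fun b _ => b.1) (fun b hb => ?_) (fun b _ b' _ h => Fin.ext h)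
        (fun x hx => ?_)
      · exact mem_range.2 (mem_filter.1 hb).2
      · have hx' := mem_range.1 hx
        exact ⟨⟨x, by omega⟩, mem_filter.2 ⟨mem_univ _, hx'⟩, rfl⟩
    rw [h1, card_range]
  have h := GNL.sum_gain (U := (Fin k × Fin S × Fin τ) ⊕ ((Fin k × Fin k) × Fin τ))
    (P := Fin k × Fin k) 1 τ (RHa Λ a o)
    (fun ω e => suR a o ω e)
    (fun e => ((o e) ×ˢ ((univ : Finset (Fin τ)).filter fun b => b.1 < τ - a)).image
        (fun p => Sum.inl (e.1, p.1, p.2)) ∪
      (((univ : Finset (Fin τ)).filter fun b => b.1 < a).image fun b => Sum.inr (e, b)))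
    (fun e he => by
      have h0 : (o e).card = 1 := by
        obtain ⟨c, hc, _⟩ := (mem_filter.1 he).2
        have h1 := ho e
        have h2 : 0 < (o e).card := card_pos.2 ⟨c, hc⟩
        omega
      rw [card_union_of_disjoint, card_image_of_injective, card_image_of_injective, card_product,
        h0, hc1 _ (by omega), hc1 _ (by omega)]
      · omega
      · intro b b' hbb
        simpa using hbb
      · rintro ⟨x, y⟩ ⟨x', y'⟩ hxy
        simpa using hxy
      · rw [disjoint_left]
        intro x hx hx'
        obtain ⟨p, _, rfl⟩ := mem_image.1 hx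
        obtain ⟨b, _, hb⟩ := mem_image.1 hx'
        simp at hb)
    (fun e _ ω => by
      unfold suR cho thi
      constructor
      · rintro ⟨h1, h2⟩ y hy
        rcases mem_union.1 hy with hy | hy
        · obtain ⟨p, hp, rfl⟩ := mem_image.1 hy
          have hp' := mem_product.1 hp
          exact h1 p.1 hp'.1 p.2 (mem_filter.1 hp'.2).2
        · obtain ⟨b, hb, rfl⟩ := mem_image.1 hy
          exact h2 b (mem_filter.1 hb).2
      · intro h
        refine ⟨fun c hc b hb => ?_, fun b hb => ?_⟩
        · exact h _ (mem_union_left _ (mem_image.2 ⟨(c, b), mem_product.2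
            ⟨hc, mem_filter.2 ⟨mem_univ _, hb⟩⟩, rfl⟩))
        · exact h _ (mem_union_right _ (mem_image.2 ⟨b, mem_filter.2 ⟨mem_univ _, hb⟩, rfl⟩))) w
  have h2 : (((1 : ℕ) : ℝ) + 1) = 2 := by norm_num
  rw [h2] at h
  exact h

end Pool.Agent.T2h38.OP
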