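import Pool.Agent.T2h38.OP.Stm

/-! Project OP (owner helper38), task LIG: the light inequality. -/

set_option autoImplicit false

namespace Pool.Agent.T2h38.OP

open Finset Pool.Agent.T2h38.JM

namespace LIG

section one

variable {k S m : ℕ}

/-- the heavy cells of the row in the sample -/
def Ro (Λ : ℕ) (o : Fin k × Fin k → Finset (Fin S)) (ω : OmL k S m) (i : Fin k) : Finset (Fin S) :=
  univ.filter fun c => Λ < rl o i c ∧ ω (Sum.inl c) = 0

/-- the heavy cells of the column in the sample -/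
def Co (Λ : ℕ) (o : Fin k × Fin k → Finset (Fin S)) (ω : OmL k S m) (j : Fin k) : Finset (Fin S) :=
  univ.filter fun c => Λ < cl o j c ∧ ω (Sum.inl c) = 0

open Classical in
/-- number of surviving light pairs of a row -/
noncomputable def nR (Λ : ℕ) (o : Fin k × Fin k → Finset (Fin S)) (ω : OmL k S m) (i : Fin k) : ℕ :=
  ((LT Λ o).filter fun e' => e'.1 = i ∧ suL o ω e').card

open Classical in
/-- number of surviving light pairs of a column -/
noncomputable def nC (Λ : ℕ) (o : Fin k × Fin k → Finset (Fin S)) (ω : OmL k S m) (j : Fin k) : ℕ :=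
  ((LT Λ o).filter fun e' => e'.2 = j ∧ suL o ω e').card

open Classical in
/-- number of lost pairs -/
noncomputable def lost (Λ D h0 : ℕ) (o : Fin k × Fin k → Finset (Fin S)) (ω : OmL k S m) : ℕ :=
  ((LT Λ o).filter fun e => suL o ω e ∧ (h0 < (Ro Λ o ω e.1).card ∨ h0 < (Co Λ o ω e.2).card ∨
    D < nR Λ o ω e.1 ∨ D < nC Λ o ω e.2)).card

/-- truncation -/
def tr (h0 : ℕ) (A : Finset (Fin S)) : Finset (Fin S) := if A.card ≤ h0 then A else ∅

theorem tr_card (h0 : ℕ) (A : Finset (Fin S)) : (tr h0 A).card ≤ h0 := by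
  unfold tr
  split_ifs with h
  · exact h
  · simp

/-- the selection -/
def PP (ω : OmL k S m) (γ : (Fin k → Finset (Fin S)) × (Fin k → Finset (Fin S))) (e : Fin k × Fin k)
    (acc : Finset (Fin S)) : Bool :=
  decide ((∀ c ∈ acc, ω (Sum.inl c) = 0) ∧ (∀ c ∈ acc, c ∉ γ.1 e.1) ∧ (∀ c ∈ acc, c ∉ γ.2 e.2) ∧
    (acc = ∅ → ω (Sum.inr e) = 0))

/-- the side information -/
def gm (Λ h0 : ℕ) (o : Fin k × Fin k → Finset (Fin S)) (ω : OmL k S m) :
    (Fin k → Finset (Fin S)) × (Fin k → Finset (Fin S)) :=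
  (fun i => tr h0 (Ro Λ o ω i), fun j => tr h0 (Co Λ o ω j))

/-- good rows -/
noncomputable def Rg (Λ D h0 : ℕ) (o : Fin k × Fin k → Finset (Fin S)) (ω : OmL k S m) : Finset (Fin k) :=
  univ.filter fun i => (Ro Λ o ω i).card ≤ h0 ∧ nR Λ o ω i ≤ D

/-- good columns -/
noncomputable def Cg (Λ D h0 : ℕ) (o : Fin k × Fin k → Finset (Fin S)) (ω : OmL k S m) : Finset (Fin k) :=
  univ.filter fun j => (Co Λ o ω j).card ≤ h0 ∧ nC Λ o ω j ≤ D

theorem P_iff (Λ D h0 : ℕ) (o : Fin k × Fin k → Finset (Fin S)) (ω : OmL k S m) (e : Fin k × Fin k)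
    (he : e ∈ Rg Λ D h0 o ω ×ˢ Cg Λ D h0 o ω) :
    PP ω (gm Λ h0 o ω) e (o e) = true ↔ e ∈ LT Λ o ∧ suL o ω e := by
  rw [mem_product, Rg, Cg, mem_filter, mem_filter] at he
  have h1 : tr h0 (Ro Λ o ω e.1) = Ro Λ o ω e.1 := if_pos he.1.2.1
  have h2 : tr h0 (Co Λ o ω e.2) = Co Λ o ω e.2 := if_pos he.2.2.1
  unfold PP gm suL LT
  rw [decide_eq_true_eq]
  dsimp only
  rw [h1, h2]
  simp only [Ro, Co, RH, CH, mem_sdiff, mem_union, mem_filter, mem_univ, true_and, not_or,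
    not_exists, not_and]
  constructor
  · rintro ⟨a1, a2, a3, a4⟩
    exact ⟨⟨fun c hc h => a2 c hc h (a1 c hc), fun c hc h => a3 c hc h (a1 c hc)⟩, a1, a4⟩
  · rintro ⟨⟨a2, a3⟩, a1, a4⟩
    exact ⟨a1, fun c hc h => absurd h (a2 c hc), fun c hc h => absurd h (a3 c hc), a4⟩

open Classical in
theorem one (Λ D h0 : ℕ) (o : Fin k × Fin k → Finset (Fin S)) (ω : OmL k S m) (w w' : Fin k × Fin k → ℝ)
    (ℓ : ℝ) (hℓ : ∀ e, w e ≤ ℓ) (hw : ∀ e, w e ≤ w' e) :
    (∑ e ∈ (LT Λ o).filter (fun e => suL o ω e), w e) - ℓ * (lost Λ D h0 o ω : ℝ) ≤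
      ∑ e ∈ (Rg Λ D h0 o ω ×ˢ Cg Λ D h0 o ω).filter (fun e => PP ω (gm Λ h0 o ω) e (o e) = true), w' e := by
  have h1 : (lost Λ D h0 o ω : ℝ) = ∑ e : Fin k × Fin k, if (e ∈ LT Λ o ∧ suL o ω e) ∧
      e ∉ Rg Λ D h0 o ω ×ˢ Cg Λ D h0 o ω then (1 : ℝ) else 0 := by
    unfold lost
    rw [Finset.card_filter]
    push_cast
    rw [← Finset.sum_filter, ← Finset.sum_filter, Finset.sum_const, Finset.sum_const]
    congr 2
    ext e
    rw [mem_filter, mem_filter, mem_product, Rg, Cg, mem_filter, mem_filter]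
    simp only [mem_univ, true_and, not_and_or, not_le]
    tauto
  have h2 : ∑ e ∈ (LT Λ o).filter (fun e => suL o ω e), w e = ∑ e : Fin k × Fin k,
      if (e ∈ LT Λ o ∧ suL o ω e) then w e else 0 := by
    rw [← Finset.sum_filter]
    congr 1
    ext e
    simp
  have h3 : ∑ e ∈ (Rg Λ D h0 o ω ×ˢ Cg Λ D h0 o ω).filter (fun e => PP ω (gm Λ h0 o ω) e (o e) = true), w' e =
      ∑ e : Fin k × Fin k, if e ∈ Rg Λ D h0 o ω ×ˢ Cg Λ D h0 o ω ∧ (e ∈ LT Λ o ∧ suL o ω e) then w' e else 0 := by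
    rw [← Finset.sum_filter]
    congr 1
    ext e
    rw [mem_filter, mem_filter]
    constructor
    · rintro ⟨a1, a2⟩
      exact ⟨mem_univ _, a1, (P_iff Λ D h0 o ω e a1).1 a2⟩
    · rintro ⟨-, a1, a2⟩
      exact ⟨a1, (P_iff Λ D h0 o ω e a1).2 a2⟩
  rw [h1, h2, h3, Finset.mul_sum, ← Finset.sum_sub_distrib]
  refine Finset.sum_le_sum fun e _ => ?_
  by_cases a1 : e ∈ LT Λ o ∧ suL o ω e
  · by_cases a2 : e ∈ Rg Λ D h0 o ω ×ˢ Cg Λ D h0 o ω
    · rw [if_pos a1, if_neg (fun h => h.2 a2), if_pos ⟨a2, a1⟩, mul_zero, sub_zero]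
      exact hw e
    · rw [if_pos a1, if_pos ⟨a1, a2⟩, if_neg (fun h => a2 h.1), mul_one]
      linarith [hℓ e]
  · rw [if_neg a1, if_neg (fun h => a1 h.1), if_neg (fun h => a1 h.2), mul_zero, sub_zero]

end one

/-- the number of the advices, its logarithm -/
theorem log_num (k S V r h0 c0 : ℕ) (hV : 0 < V) (hr : 0 < r) :
    Real.log (2 * (((V ^ c0 * ((S + 1) ^ (k * h0) * (S + 1) ^ (k * h0)) * (2 ^ k * 2 ^ k) : ℕ) : ℝ) * r)) =
      Real.log 2 + c0 * Real.log V + 2 * (k * h0 * Real.log ((S : ℝ) + 1)) + 2 * k * Real.log 2 +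
        Real.log r := by
  have hV' : (0 : ℝ) < V := by exact_mod_cast hV
  have hr' : (0 : ℝ) < r := by exact_mod_cast hr
  push_cast
  rw [Real.log_mul (by norm_num) (by positivity), Real.log_mul (by positivity) (by positivity),
    Real.log_mul (by positivity) (by positivity), Real.log_mul (by positivity) (by positivity),
    Real.log_mul (by positivity) (by positivity), Real.log_mul (by positivity) (by positivity),
    Real.log_pow, Real.log_pow, Real.log_pow]
  push_cast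
  ring

theorem img_inst {X Y : Type} (i1 i2 : DecidableEq Y) (f : X → Y) (s : Finset X) :
    @Finset.image X Y i1 f s = @Finset.image X Y i2 f s := by
  rw [Subsingleton.elim i1 i2]

open Classical in
theorem sample (hADV : S_ADV) (hCNL : S_CNL) (hWGT : S_WGT) (α A : Type) [Fintype α] [Nonempty α]
    (k S V W r : ℕ) (L ε : ℝ) (hL : 1 < L) (hε : 0 ≤ ε)
    (d : α → α → Bool) (q : Fin r → Fin k → Fin k → QAlg A S V W)
    (a a' : Fin r → Fin k → α → A → Fin W) (φ : (Fin k → α) × (Fin k → α) → Fin r)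
    (T D : ℕ) (v0 : Fin V) (J : (Fin k → α) × (Fin k → α) → Fin S → Fin V) (hH : HSC L ε d q a a' T D)
    (Λ m h0 : ℕ) (ω : OmL k S m) :
    ∑ z, ((∑ e ∈ (LT Λ (cc q a a' φ T J z)).filter (fun e => suL (cc q a a' φ T J z) ω e),
        ww L ε d q a a' φ T J z e) - Real.log L * (lost Λ D h0 (cc q a a' φ T J z) ω : ℝ)) ≤
      (Fintype.card ((Fin k → α) × (Fin k → α)) : ℕ) *
      (Real.log 2 + (∑ c : Fin S, if ω (Sum.inl c) = 0 then (1 : ℝ) else 0) * Real.log V +
        2 * (k * h0 * Real.log ((S : ℝ) + 1)) + 2 * k * Real.log 2 + Real.log r) := by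
  set C0 : Finset (Fin S) := univ.filter fun c => ω (Sum.inl c) = 0 with hC0
  have hV : 0 < V := lt_of_le_of_lt (Nat.zero_le _) v0.2
  have hr : 0 < r := by
    have z0 : (Fin k → α) × (Fin k → α) := Classical.arbitrary _
    exact lt_of_le_of_lt (Nat.zero_le _) (φ z0).2
  have hcnt : (∑ c : Fin S, if ω (Sum.inl c) = 0 then (1 : ℝ) else 0) = (C0.card : ℝ) := by
    rw [hC0, Finset.card_filter]
    push_cast
    rfl
  rw [hcnt, ← log_num k S V r h0 C0.card hV hr]
  refine le_trans (Finset.sum_le_sum fun z _ => one Λ D h0 (cc q a a' φ T J z) ω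
    (ww L ε d q a a' φ T J z) (fun e => Real.log (Real.exp (-ε) *
      kk L (1 / 2) d (oo q a a' φ T J z e).1 (z.1 e.1) (z.2 e.2))) (Real.log L)
    (fun e => (hWGT α A k S V W r L ε hL hε d q a a' φ T J z e).1)
    (fun e => (hWGT α A k S V W r L ε hL hε d q a a' φ T J z e).2)) ?_
  have hcount := hCNL ((Fin k → α) × (Fin k → α)) k S V h0 v0 J C0
    (fun z => (gm Λ h0 (cc q a a' φ T J z) ω).1) (fun z => (gm Λ h0 (cc q a a' φ T J z) ω).2)
    (fun z i => tr_card _ _) (fun z i => tr_card _ _)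
    (fun z => Rg Λ D h0 (cc q a a' φ T J z) ω) (fun z => Cg Λ D h0 (cc q a a' φ T J z) ω)
  have hadv := hADV α A ((Fin k → Finset (Fin S)) × (Fin k → Finset (Fin S))) k S V W r L ε hL.le
    d q a a' φ T D J hH (PP ω)
    (fun z => ((fun c => if c ∈ C0 then J z c else v0), gm Λ h0 (cc q a a' φ T J z) ω,
      Rg Λ D h0 (cc q a a' φ T J z) ω, Cg Λ D h0 (cc q a a' φ T J z) ω))
    (V ^ C0.card * ((S + 1) ^ (k * h0) * (S + 1) ^ (k * h0)) * (2 ^ k * 2 ^ k))
    (by
      refine le_trans (le_of_eq ?_) hcount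
      exact congrArg Finset.card (img_inst _ _ _ _))
    (by
      intro z e acc hacc c hc
      unfold PP at hacc
      rw [decide_eq_true_eq] at hacc
      have h1 : c ∈ C0 := by
        rw [hC0, mem_filter]
        exact ⟨mem_univ _, hacc.1 c hc⟩
      exact if_pos h1)
    (by
      intro z i hi
      have h1 : i ∈ Rg Λ D h0 (cc q a a' φ T J z) ω := hi
      rw [Rg, mem_filter] at h1
      refine le_trans (Finset.card_le_card ?_) h1.2.2
      intro e he
      rw [mem_filter] at he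
      rw [mem_filter]
      have h2 := (P_iff Λ D h0 (cc q a a' φ T J z) ω e he.1).1 he.2.2
      exact ⟨h2.1, he.2.1, h2.2⟩)
    (by
      intro z i hi
      have h1 : i ∈ Cg Λ D h0 (cc q a a' φ T J z) ω := hi
      rw [Cg, mem_filter] at h1
      refine le_trans (Finset.card_le_card ?_) h1.2.2
      intro e he
      rw [mem_filter] at he
      rw [mem_filter]
      have h2 := (P_iff Λ D h0 (cc q a a' φ T J z) ω e he.1).1 he.2.2
      exact ⟨h2.1, he.2.1, h2.2⟩)
  exact hadv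

end LIG

open LIG in
open Classical in
theorem t_LIG : S_LIG := by
  intro hADV hCNL hWGT hGNL hLSL α A _ _ k S V W r L ε hL hε d q a a' φ T D v0 J hH Λ m h0 hΛ hD hh0 hk hk1
  set Zc : ℝ := ((Fintype.card ((Fin k → α) × (Fin k → α)) : ℕ) : ℝ) with hZc
  set Nω : ℝ := ((Fintype.card (OmL k S m) : ℕ) : ℝ) with hNω
  have hNω0 : 0 < Nω := by
    rw [hNω]
    exact_mod_cast Fintype.card_pos
  have hm : (0 : ℝ) < (m : ℝ) + 1 := by positivity
  have hl : 0 < Real.log L := Real.log_pos hL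
  have hcard : ∀ z e, (cc q a a' φ T J z e).card ≤ 1 := by
    intro z e
    have := run_card (J z) (a (φ z) e.1 (z.1 e.1)) (a' (φ z) e.2 (z.2 e.2)) (q (φ z) e.1 e.2) T 1 ∅
    rw [Finset.card_empty, zero_add] at this
    exact this
  have hsum := Finset.sum_le_sum fun (ω : OmL k S m) (_ : ω ∈ (univ : Finset (OmL k S m))) =>
    sample hADV hCNL hWGT α A k S V W r L ε hL hε d q a a' φ T D v0 J hH Λ m h0 ω
  have hleft : Nω * ((∑ z, ∑ e ∈ LT Λ (cc q a a' φ T J z), ww L ε d q a a' φ T J z e) / ((m : ℝ) + 1)) -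
      Real.log L * (Zc * (Nω * ((k : ℝ) ^ 2 / 128 / ((m : ℝ) + 1)))) ≤
      ∑ ω : OmL k S m, ∑ z, ((∑ e ∈ (LT Λ (cc q a a' φ T J z)).filter (fun e => suL (cc q a a' φ T J z) ω e),
        ww L ε d q a a' φ T J z e) - Real.log L * (lost Λ D h0 (cc q a a' φ T J z) ω : ℝ)) := by
    conv_rhs => rw [Finset.sum_comm]
    have h1 : ∀ z : (Fin k → α) × (Fin k → α),
        Nω * ((∑ e ∈ LT Λ (cc q a a' φ T J z), ww L ε d q a a' φ T J z e) / ((m : ℝ) + 1)) -
        Real.log L * (Nω * ((k : ℝ) ^ 2 / 128 / ((m : ℝ) + 1))) ≤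
        ∑ ω : OmL k S m, ((∑ e ∈ (LT Λ (cc q a a' φ T J z)).filter (fun e => suL (cc q a a' φ T J z) ω e),
        ww L ε d q a a' φ T J z e) - Real.log L * (lost Λ D h0 (cc q a a' φ T J z) ω : ℝ)) := by
      intro z
      have h2 := hGNL k S m (cc q a a' φ T J z) (hcard z) (LT Λ (cc q a a' φ T J z)) (ww L ε d q a a' φ T J z)
      have h3 := hLSL k S m Λ D h0 hΛ hD hh0 hk (cc q a a' φ T J z) (hcard z)
      have h4 : (((LT Λ (cc q a a' φ T J z)).card : ℕ) : ℝ) ≤ (k : ℝ) ^ 2 := by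
        have h5 : (LT Λ (cc q a a' φ T J z)).card ≤ k * k := by
          refine (Finset.card_le_univ _).trans ?_
          rw [Fintype.card_prod, Fintype.card_fin]
        have h6 : (((LT Λ (cc q a a' φ T J z)).card : ℕ) : ℝ) ≤ ((k * k : ℕ) : ℝ) := by exact_mod_cast h5
        rw [Nat.cast_mul] at h6
        rw [sq]
        exact h6
      have h5 : (∑ ω : OmL k S m, (lost Λ D h0 (cc q a a' φ T J z) ω : ℝ)) ≤
          Nω * ((k : ℝ) ^ 2 / 128 / ((m : ℝ) + 1)) := by
        refine le_trans h3 (mul_le_mul_of_nonneg_left ?_ hNω0.le)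
        gcongr
      rw [Finset.sum_sub_distrib, ← Finset.mul_sum]
      have h6 := mul_le_mul_of_nonneg_left h5 hl.le
      have h7 : ∑ ω : OmL k S m, ∑ e ∈ (LT Λ (cc q a a' φ T J z)).filter (fun e => suL (cc q a a' φ T J z) ω e),
        ww L ε d q a a' φ T J z e = Nω * ((∑ e ∈ LT Λ (cc q a a' φ T J z), ww L ε d q a a' φ T J z e) / ((m : ℝ) + 1)) := h2
      rw [h7]
      linarith
    refine le_trans (le_of_eq ?_) (Finset.sum_le_sum fun z _ => h1 z)
    rw [Finset.sum_sub_distrib, ← Finset.mul_sum, ← Finset.sum_div, Finset.sum_const,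
      Finset.card_univ, nsmul_eq_mul, ← hZc]
    ring
  have hright : ∑ ω : OmL k S m, Zc *
      (Real.log 2 + (∑ c : Fin S, if ω (Sum.inl c) = 0 then (1 : ℝ) else 0) * Real.log V +
        2 * (k * h0 * Real.log ((S : ℝ) + 1)) + 2 * k * Real.log 2 + Real.log r) =
      Nω * (Zc * (Real.log 2 + (S : ℝ) / ((m : ℝ) + 1) * Real.log V +
        2 * (k * h0 * Real.log ((S : ℝ) + 1)) + 2 * k * Real.log 2 + Real.log r)) := by
    have h1 : ∑ ω : OmL k S m, (∑ c : Fin S, if ω (Sum.inl c) = 0 then (1 : ℝ) else 0) =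
        Nω * ((S : ℝ) / ((m : ℝ) + 1)) := by
      rw [Finset.sum_comm]
      have h2 : ∀ c : Fin S, ∑ ω : OmL k S m, (if ω (Sum.inl c) = 0 then (1 : ℝ) else 0) =
          Nω / ((m : ℝ) + 1) := by
        intro c
        have h3 := count_zero m ({Sum.inl c} : Finset (Fin S ⊕ (Fin k × Fin k)))
        rw [Finset.card_singleton, pow_one, ← hNω] at h3
        rw [eq_div_iff hm.ne', mul_comm, ← h3]
        congr 1
        refine Finset.sum_congr rfl fun ω _ => ?_
        simp only [Finset.mem_singleton, forall_eq]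
      simp_rw [h2]
      rw [Finset.sum_const, Finset.card_univ, Fintype.card_fin, nsmul_eq_mul]
      ring
    rw [← Finset.mul_sum, Finset.sum_add_distrib, Finset.sum_add_distrib,
      Finset.sum_add_distrib, Finset.sum_add_distrib, ← Finset.sum_mul, h1,
      Finset.sum_const, Finset.sum_const, Finset.sum_const, Finset.sum_const, Finset.card_univ, nsmul_eq_mul,
      nsmul_eq_mul, nsmul_eq_mul, nsmul_eq_mul, ← hNω]
    ring
  have hall := hleft.trans (hsum.trans (le_of_eq hright))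
  have e1 : Real.log L * (Zc * (Nω * ((k : ℝ) ^ 2 / 128 / ((m : ℝ) + 1)))) =
      Nω * (Zc * (Real.log L / 128 * (k : ℝ) ^ 2) / ((m : ℝ) + 1)) := by ring
  rw [e1] at hall
  have e2 : Nω * ((∑ z, ∑ e ∈ LT Λ (cc q a a' φ T J z), ww L ε d q a a' φ T J z e) / ((m : ℝ) + 1)) ≤
      Nω * ((Zc * (Real.log L / 128 * (k : ℝ) ^ 2 +
      S * Real.log V + ((m : ℝ) + 1) * (Real.log 2 + 2 * (k * h0 * Real.log ((S : ℝ) + 1)) +
        2 * k * Real.log 2 + Real.log r))) / ((m : ℝ) + 1)) := by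
    have e3 : (Zc * (Real.log L / 128 * (k : ℝ) ^ 2 +
      S * Real.log V + ((m : ℝ) + 1) * (Real.log 2 + 2 * (k * h0 * Real.log ((S : ℝ) + 1)) +
        2 * k * Real.log 2 + Real.log r))) / ((m : ℝ) + 1) =
        Zc * (Real.log L / 128 * (k : ℝ) ^ 2) / ((m : ℝ) + 1) +
        Zc * (Real.log 2 + (S : ℝ) / ((m : ℝ) + 1) * Real.log V +
        2 * (k * h0 * Real.log ((S : ℝ) + 1)) + 2 * k * Real.log 2 + Real.log r) := by
      field_simp
      ring
    rw [e3, mul_add]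
    linarith
  have e4 := le_of_mul_le_mul_left e2 hNω0
  rwa [div_le_div_iff_of_pos_right hm] at e4

end Pool.Agent.T2h38.OP
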