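import Pool.Agent.T2h38.OP.Stm

/-! Project OP: the expected loss in the light case. -/

set_option autoImplicit false

namespace Pool.Agent.T2h38.OP

open Finset Pool.Agent.T2h38.JM

namespace LSL

open Classical in
/-- the number of samples vanishing at one or two given coordinates -/
theorem two {U : Type} [Fintype U] [DecidableEq U] (m : ℕ) (u v : U) :
    ∑ ω : U → Fin (m + 1), (if ω u = 0 ∧ ω v = 0 then (1 : ℝ) else 0) ≤
      (Fintype.card (U → Fin (m + 1)) : ℕ) *
        ((if v = u then 1 / ((m : ℝ) + 1) else 0) + 1 / ((m : ℝ) + 1) ^ 2) := by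
  have hm : (0 : ℝ) < (m : ℝ) + 1 := by positivity
  have hN0 : (0 : ℝ) ≤ (Fintype.card (U → Fin (m + 1)) : ℕ) := Nat.cast_nonneg _
  by_cases h : v = u
  · subst h
    have h1 := count_zero m ({v} : Finset U)
    rw [card_singleton, pow_one] at h1
    have h2 : ∑ ω : U → Fin (m + 1), (if ω v = 0 ∧ ω v = 0 then (1 : ℝ) else 0) =
        ∑ ω : U → Fin (m + 1), (if ∀ y ∈ ({v} : Finset U), ω y = 0 then (1 : ℝ) else 0) := by
      refine Finset.sum_congr rfl fun ω _ => ?_
      by_cases h3 : ω v = 0
      · rw [if_pos ⟨h3, h3⟩, if_pos (fun y hy => by rw [mem_singleton.1 hy]; exact h3)]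
      · rw [if_neg (fun h => h3 h.1), if_neg (fun h => h3 (h v (mem_singleton_self v)))]
    rw [h2, if_pos rfl, ← h1]
    have h4 : 0 ≤ ∑ ω : U → Fin (m + 1),
        (if ∀ y ∈ ({v} : Finset U), ω y = 0 then (1 : ℝ) else 0) :=
      Finset.sum_nonneg fun ω _ => by split_ifs <;> norm_num
    set s := ∑ ω : U → Fin (m + 1),
        (if ∀ y ∈ ({v} : Finset U), ω y = 0 then (1 : ℝ) else 0) with hs
    have h5 : ((m : ℝ) + 1) * s * (1 / ((m : ℝ) + 1) + 1 / ((m : ℝ) + 1) ^ 2) =
        s + s / ((m : ℝ) + 1) := by
      field_simp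
    rw [h5]
    have : 0 ≤ s / ((m : ℝ) + 1) := div_nonneg h4 hm.le
    linarith
  · have h1 := count_zero m ({v, u} : Finset U)
    rw [card_pair h] at h1
    have h2 : ∑ ω : U → Fin (m + 1), (if ω u = 0 ∧ ω v = 0 then (1 : ℝ) else 0) =
        ∑ ω : U → Fin (m + 1), (if ∀ y ∈ ({v, u} : Finset U), ω y = 0 then (1 : ℝ) else 0) := by
      refine Finset.sum_congr rfl fun ω _ => ?_
      by_cases h3 : ω u = 0 ∧ ω v = 0
      · rw [if_pos h3, if_pos]
        intro y hy
        rcases mem_insert.1 hy with hy | hy
        · rw [hy]; exact h3.2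
        · rw [mem_singleton.1 hy]; exact h3.1
      · rw [if_neg h3, if_neg (fun h => h3 ⟨h u (by simp), h v (by simp)⟩)]
    rw [h2, if_neg h, zero_add, ← h1]
    refine le_of_eq ?_
    field_simp

open Classical in
/-- one kind of loss -/
theorem one {U X : Type} [Fintype U] [DecidableEq U] (m h : ℕ) (u : U) (T : Finset X)
    (γ : X → U) (t n : ℝ) (ht : (((T.filter fun x => γ x = u).card : ℕ) : ℝ) ≤ t)
    (hn : ((T.card : ℕ) : ℝ) ≤ n * ((m : ℝ) + 1)) (hh : 0 < h) :
    (∑ ω : U → Fin (m + 1), (if ω u = 0 ∧ h < (T.filter fun x => ω (γ x) = 0).card then (1 : ℝ)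
      else 0)) ≤
      (Fintype.card (U → Fin (m + 1)) : ℕ) * (((t + n) / h) / ((m : ℝ) + 1)) := by
  have hm : (0 : ℝ) < (m : ℝ) + 1 := by positivity
  have hh' : (0 : ℝ) < h := Nat.cast_pos.2 hh
  have hN0 : (0 : ℝ) ≤ (Fintype.card (U → Fin (m + 1)) : ℕ) := Nat.cast_nonneg _
  have key : (∑ ω : U → Fin (m + 1), (if ω u = 0 ∧ h < (T.filter fun x => ω (γ x) = 0).card
      then (1 : ℝ) else 0)) * h ≤ (Fintype.card (U → Fin (m + 1)) : ℕ) *
      ((t + n) / ((m : ℝ) + 1)) := by
    calc _ ≤ ∑ ω : U → Fin (m + 1), ∑ x ∈ T, (if ω u = 0 ∧ ω (γ x) = 0 then (1 : ℝ) else 0) := by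
          rw [Finset.sum_mul]
          refine Finset.sum_le_sum fun ω _ => ?_
          by_cases h1 : ω u = 0 ∧ h < (T.filter fun x => ω (γ x) = 0).card
          · rw [if_pos h1, one_mul]
            have h2 : ∑ x ∈ T, (if ω u = 0 ∧ ω (γ x) = 0 then (1 : ℝ) else 0) =
                (((T.filter fun x => ω (γ x) = 0).card : ℕ) : ℝ) := by
              rw [Finset.card_filter]
              push_cast
              refine Finset.sum_congr rfl fun x _ => ?_
              by_cases h3 : ω (γ x) = 0
              · rw [if_pos ⟨h1.1, h3⟩, if_pos h3]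
              · rw [if_neg (fun h => h3 h.2), if_neg h3]
            rw [h2]
            exact_mod_cast h1.2.le
          · rw [if_neg h1, zero_mul]
            exact Finset.sum_nonneg fun x _ => by split_ifs <;> norm_num
      _ = ∑ x ∈ T, ∑ ω : U → Fin (m + 1), (if ω u = 0 ∧ ω (γ x) = 0 then (1 : ℝ) else 0) :=
          Finset.sum_comm
      _ ≤ ∑ x ∈ T, (Fintype.card (U → Fin (m + 1)) : ℕ) *
        ((if γ x = u then 1 / ((m : ℝ) + 1) else 0) + 1 / ((m : ℝ) + 1) ^ 2) :=
          Finset.sum_le_sum fun x _ => two m u (γ x)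
      _ = (Fintype.card (U → Fin (m + 1)) : ℕ) *
        ((((T.filter fun x => γ x = u).card : ℕ) : ℝ) * (1 / ((m : ℝ) + 1)) +
          ((T.card : ℕ) : ℝ) * (1 / ((m : ℝ) + 1) ^ 2)) := by
          rw [← Finset.mul_sum, Finset.sum_add_distrib, Finset.sum_const, nsmul_eq_mul,
            ← Finset.sum_filter, Finset.sum_const, nsmul_eq_mul]
      _ ≤ _ := by
          refine mul_le_mul_of_nonneg_left ?_ hN0
          have h1 : (((T.filter fun x => γ x = u).card : ℕ) : ℝ) * (1 / ((m : ℝ) + 1)) ≤
              t * (1 / ((m : ℝ) + 1)) := mul_le_mul_of_nonneg_right ht (by positivity)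
          have h2 : ((T.card : ℕ) : ℝ) * (1 / ((m : ℝ) + 1) ^ 2) ≤
              n * ((m : ℝ) + 1) * (1 / ((m : ℝ) + 1) ^ 2) :=
            mul_le_mul_of_nonneg_right hn (by positivity)
          have h3 : n * ((m : ℝ) + 1) * (1 / ((m : ℝ) + 1) ^ 2) = n * (1 / ((m : ℝ) + 1)) := by
            field_simp
          rw [h3] at h2
          calc _ ≤ t * (1 / ((m : ℝ) + 1)) + n * (1 / ((m : ℝ) + 1)) := add_le_add h1 h2
            _ = _ := by ring
  rw [← le_div_iff₀ hh'] at key
  refine key.trans (le_of_eq ?_)
  field_simp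

end LSL

open LSL in
theorem t_LSL : S_LSL := by
  classical
  intro k S m Λ D h0 hΛ hD hh0 hk o ho
  have hm : (0 : ℝ) < (m : ℝ) + 1 := by positivity
  have hN0 : (0 : ℝ) ≤ (Fintype.card (OmL k S m) : ℕ) := Nat.cast_nonneg _
  -- the coordinate of a pair
  have hβ : ∀ e : Fin k × Fin k, ∃ u : Fin S ⊕ (Fin k × Fin k),
      (∀ ω : OmL k S m, suL o ω e ↔ ω u = 0) ∧ (∀ c, u = Sum.inl c → c ∈ o e) ∧
      (∀ c, c ∈ o e → u = Sum.inl c) ∧ (o e = ∅ → u = Sum.inr e) := by
    intro e
    by_cases h : o e = ∅
    · refine ⟨Sum.inr e, fun ω => ?_, fun c hc => by simp at hc, fun c hc => ?_, fun _ => rfl⟩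
      · unfold suL
        simp [h]
      · rw [h] at hc
        simp at hc
    · obtain ⟨c, hc⟩ := nonempty_iff_ne_empty.2 h
      have h1 : ∀ c' ∈ o e, c' = c := fun c' hc' => card_le_one.1 (ho e) c' hc' c hc
      refine ⟨Sum.inl c, fun ω => ?_, fun c' hc' => ?_, fun c' hc' => ?_, fun h' => absurd h' h⟩
      · unfold suL
        constructor
        · rintro ⟨h2, _⟩
          exact h2 c hc
        · intro h2
          refine ⟨fun c' hc' => ?_, fun h' => absurd h' h⟩
          rw [h1 c' hc']
          exact h2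
      · rw [← Sum.inl_injective hc']
        exact hc
      · rw [h1 c' hc']
  choose β hβ1 hβ2 hβ3 hβ4 using hβ
  -- light pairs
  have hlt : ∀ e ∈ LT Λ o, (∀ c ∈ o e, rl o e.1 c ≤ Λ) ∧ (∀ c ∈ o e, cl o e.2 c ≤ Λ) := by
    intro e he
    have h1 := (mem_sdiff.1 he).2
    rw [mem_union, not_or] at h1
    refine ⟨fun c hc => ?_, fun c hc => ?_⟩
    · by_contra h2
      exact h1.1 (mem_filter.2 ⟨mem_univ _, c, hc, not_le.1 h2⟩)
    · by_contra h2
      exact h1.2 (mem_filter.2 ⟨mem_univ _, c, hc, not_le.1 h2⟩)
  -- the total loads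
  have hrow : ∀ i, (univ.filter fun c => Λ < rl o i c).card ≤ m + 1 := by
    intro i
    have h1 : ∑ c, rl o i c ≤ k := by
      calc ∑ c, rl o i c = ∑ c, ∑ j, (if c ∈ o (i, j) then 1 else 0) := by
            refine Finset.sum_congr rfl fun c _ => ?_
            unfold rl
            rw [card_filter]
        _ = ∑ j, ∑ c, (if c ∈ o (i, j) then 1 else 0) := Finset.sum_comm
        _ = ∑ j, (o (i, j)).card := by
            refine Finset.sum_congr rfl fun j _ => ?_
            rw [← card_filter, filter_mem_eq_inter, univ_inter]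
        _ ≤ ∑ _j : Fin k, 1 := Finset.sum_le_sum fun j _ => ho (i, j)
        _ = k := by simp
    have h2 : (univ.filter fun c => Λ < rl o i c).card * Λ ≤ ∑ c, rl o i c := by
      calc (univ.filter fun c => Λ < rl o i c).card * Λ
          ≤ ∑ c ∈ univ.filter (fun c => Λ < rl o i c), rl o i c := by
            rw [← smul_eq_mul]
            exact Finset.card_nsmul_le_sum _ _ _ fun c hc => (mem_filter.1 hc).2.le
        _ ≤ ∑ c, rl o i c := Finset.sum_le_sum_of_subset (filter_subset _ _)
    have h3 : (univ.filter fun c => Λ < rl o i c).card * Λ ≤ (m + 1) * Λ := by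
      rw [mul_comm (m + 1)]
      omega
    exact Nat.le_of_mul_le_mul_right h3 hΛ
  have hcol : ∀ j, (univ.filter fun c => Λ < cl o j c).card ≤ m + 1 := by
    intro j
    have h1 : ∑ c, cl o j c ≤ k := by
      calc ∑ c, cl o j c = ∑ c, ∑ i, (if c ∈ o (i, j) then 1 else 0) := by
            refine Finset.sum_congr rfl fun c _ => ?_
            unfold cl
            rw [card_filter]
        _ = ∑ i, ∑ c, (if c ∈ o (i, j) then 1 else 0) := Finset.sum_comm
        _ = ∑ i, (o (i, j)).card := by
            refine Finset.sum_congr rfl fun i _ => ?_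
            rw [← card_filter, filter_mem_eq_inter, univ_inter]
        _ ≤ ∑ _i : Fin k, 1 := Finset.sum_le_sum fun i _ => ho (i, j)
        _ = k := by simp
    have h2 : (univ.filter fun c => Λ < cl o j c).card * Λ ≤ ∑ c, cl o j c := by
      calc (univ.filter fun c => Λ < cl o j c).card * Λ
          ≤ ∑ c ∈ univ.filter (fun c => Λ < cl o j c), cl o j c := by
            rw [← smul_eq_mul]
            exact Finset.card_nsmul_le_sum _ _ _ fun c hc => (mem_filter.1 hc).2.le
        _ ≤ ∑ c, cl o j c := Finset.sum_le_sum_of_subset (filter_subset _ _)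
    have h3 : (univ.filter fun c => Λ < cl o j c).card * Λ ≤ (m + 1) * Λ := by
      rw [mul_comm (m + 1)]
      omega
    exact Nat.le_of_mul_le_mul_right h3 hΛ
  have hD' : (0 : ℝ) < D := by
    have : 0 < D := by omega
    exact_mod_cast this
  have hD0 : 0 < D := by omega
  have hΛr : (1024 : ℝ) * Λ ≤ D := by exact_mod_cast hD
  have hΛ0 : (0 : ℝ) < Λ := by exact_mod_cast hΛ
  have hhr : (1024 : ℝ) ≤ h0 := by exact_mod_cast hh0
  have hkr : (k : ℝ) ≤ Λ * ((m : ℝ) + 1) := by exact_mod_cast hk
  -- one light pair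
  have hpair : ∀ e ∈ LT Λ o, ∑ ω : OmL k S m, (if suL o ω e ∧
      (h0 < (univ.filter fun c => Λ < rl o e.1 c ∧ ω (Sum.inl c) = 0).card ∨
       h0 < (univ.filter fun c => Λ < cl o e.2 c ∧ ω (Sum.inl c) = 0).card ∨
       D < ((LT Λ o).filter fun e' => e'.1 = e.1 ∧ suL o ω e').card ∨
       D < ((LT Λ o).filter fun e' => e'.2 = e.2 ∧ suL o ω e').card) then (1 : ℝ) else 0) ≤
      (Fintype.card (OmL k S m) : ℕ) * (1 / 128 / ((m : ℝ) + 1)) := by
    intro e he
    obtain ⟨hl1, hl2⟩ := hlt e he
    have b1 := one (U := Fin S ⊕ (Fin k × Fin k)) m h0 (β e)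
      (univ.filter fun c => Λ < rl o e.1 c) Sum.inl 0 1 (by
        have h1 : ((univ.filter fun c => Λ < rl o e.1 c).filter fun x =>
            (Sum.inl x : Fin S ⊕ (Fin k × Fin k)) = β e) = ∅ := by
          refine filter_eq_empty_iff.2 fun c hc h => ?_
          have h2 := hl1 c (hβ2 e c h.symm)
          have h3 := (mem_filter.1 hc).2
          omega
        rw [h1]; simp) (by rw [one_mul]; exact_mod_cast hrow e.1) (by omega)
    have b2 := one (U := Fin S ⊕ (Fin k × Fin k)) m h0 (β e)
      (univ.filter fun c => Λ < cl o e.2 c) Sum.inl 0 1 (by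
        have h1 : ((univ.filter fun c => Λ < cl o e.2 c).filter fun x =>
            (Sum.inl x : Fin S ⊕ (Fin k × Fin k)) = β e) = ∅ := by
          refine filter_eq_empty_iff.2 fun c hc h => ?_
          have h2 := hl2 c (hβ2 e c h.symm)
          have h3 := (mem_filter.1 hc).2
          omega
        rw [h1]; simp) (by rw [one_mul]; exact_mod_cast hcol e.2) (by omega)
    have b3 := one (U := Fin S ⊕ (Fin k × Fin k)) m D (β e)
      ((LT Λ o).filter fun e' => e'.1 = e.1) β Λ Λ (by
        have h1 : (((LT Λ o).filter fun e' => e'.1 = e.1).filter fun x => β x = β e).card ≤ Λ := by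
          by_cases hoe : o e = ∅
          · have h2 : (((LT Λ o).filter fun e' => e'.1 = e.1).filter fun x => β x = β e) ⊆ {e} := by
              intro x hx
              have h3 := (mem_filter.1 hx).2
              rw [hβ4 e hoe] at h3
              by_cases hox : o x = ∅
              · rw [hβ4 x hox] at h3
                exact mem_singleton.2 (Sum.inr_injective h3)
              · obtain ⟨c, hc⟩ := nonempty_iff_ne_empty.2 hox
                rw [hβ3 x c hc] at h3
                simp at h3
            have h4 := card_le_card h2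
            rw [card_singleton] at h4
            omega
          · obtain ⟨c, hc⟩ := nonempty_iff_ne_empty.2 hoe
            refine le_trans ?_ (hl1 c hc)
            unfold rl
            refine card_le_card_of_injOn (fun x => x.2) (fun x hx => ?_) (fun x hx y hy hxy => ?_)
            · have h3 := (mem_filter.1 (mem_coe.1 hx)).2
              have h4 := (mem_filter.1 (mem_filter.1 (mem_coe.1 hx)).1).2
              rw [hβ3 e c hc] at h3
              have h5 := hβ2 x c h3
              refine mem_coe.2 (mem_filter.2 ⟨mem_univ _, ?_⟩)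
              rw [← h4]
              exact h5
            · have h4 := (mem_filter.1 (mem_filter.1 (mem_coe.1 hx)).1).2
              have h5 := (mem_filter.1 (mem_filter.1 (mem_coe.1 hy)).1).2
              exact Prod.ext (h4.trans h5.symm) hxy
        exact_mod_cast h1) (by
        refine le_trans ?_ hkr
        have h1 : ((LT Λ o).filter fun e' => e'.1 = e.1).card ≤ (univ : Finset (Fin k)).card := by
          refine card_le_card_of_injOn (fun x => x.2) (fun x hx => mem_coe.2 (mem_univ _))
            (fun x hx y hy hxy => ?_)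
          have h4 := (mem_filter.1 (mem_coe.1 hx)).2
          have h5 := (mem_filter.1 (mem_coe.1 hy)).2
          exact Prod.ext (h4.trans h5.symm) hxy
        rw [card_univ, Fintype.card_fin] at h1
        exact_mod_cast h1) hD0
    have b4 := one (U := Fin S ⊕ (Fin k × Fin k)) m D (β e)
      ((LT Λ o).filter fun e' => e'.2 = e.2) β Λ Λ (by
        have h1 : (((LT Λ o).filter fun e' => e'.2 = e.2).filter fun x => β x = β e).card ≤ Λ := by
          by_cases hoe : o e = ∅
          · have h2 : (((LT Λ o).filter fun e' => e'.2 = e.2).filter fun x => β x = β e) ⊆ {e} := by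
              intro x hx
              have h3 := (mem_filter.1 hx).2
              rw [hβ4 e hoe] at h3
              by_cases hox : o x = ∅
              · rw [hβ4 x hox] at h3
                exact mem_singleton.2 (Sum.inr_injective h3)
              · obtain ⟨c, hc⟩ := nonempty_iff_ne_empty.2 hox
                rw [hβ3 x c hc] at h3
                simp at h3
            have h4 := card_le_card h2
            rw [card_singleton] at h4
            omega
          · obtain ⟨c, hc⟩ := nonempty_iff_ne_empty.2 hoe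
            refine le_trans ?_ (hl2 c hc)
            unfold cl
            refine card_le_card_of_injOn (fun x => x.1) (fun x hx => ?_) (fun x hx y hy hxy => ?_)
            · have h3 := (mem_filter.1 (mem_coe.1 hx)).2
              have h4 := (mem_filter.1 (mem_filter.1 (mem_coe.1 hx)).1).2
              rw [hβ3 e c hc] at h3
              have h5 := hβ2 x c h3
              refine mem_coe.2 (mem_filter.2 ⟨mem_univ _, ?_⟩)
              rw [← h4]
              exact h5
            · have h4 := (mem_filter.1 (mem_filter.1 (mem_coe.1 hx)).1).2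
              have h5 := (mem_filter.1 (mem_filter.1 (mem_coe.1 hy)).1).2
              exact Prod.ext hxy (h4.trans h5.symm)
        exact_mod_cast h1) (by
        refine le_trans ?_ hkr
        have h1 : ((LT Λ o).filter fun e' => e'.2 = e.2).card ≤ (univ : Finset (Fin k)).card := by
          refine card_le_card_of_injOn (fun x => x.1) (fun x hx => mem_coe.2 (mem_univ _))
            (fun x hx y hy hxy => ?_)
          have h4 := (mem_filter.1 (mem_coe.1 hx)).2
          have h5 := (mem_filter.1 (mem_coe.1 hy)).2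
          exact Prod.ext hxy (h4.trans h5.symm)
        rw [card_univ, Fintype.card_fin] at h1
        exact_mod_cast h1) hD0
    have hsum : ∑ ω : OmL k S m, (if suL o ω e ∧
      (h0 < (univ.filter fun c => Λ < rl o e.1 c ∧ ω (Sum.inl c) = 0).card ∨
       h0 < (univ.filter fun c => Λ < cl o e.2 c ∧ ω (Sum.inl c) = 0).card ∨
       D < ((LT Λ o).filter fun e' => e'.1 = e.1 ∧ suL o ω e').card ∨
       D < ((LT Λ o).filter fun e' => e'.2 = e.2 ∧ suL o ω e').card) then (1 : ℝ) else 0) ≤
      ∑ ω : OmL k S m, ((if ω (β e) = 0 ∧ h0 < ((univ.filter fun c => Λ < rl o e.1 c).filter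
          fun x => ω (Sum.inl x) = 0).card then (1 : ℝ) else 0) +
        (if ω (β e) = 0 ∧ h0 < ((univ.filter fun c => Λ < cl o e.2 c).filter
          fun x => ω (Sum.inl x) = 0).card then (1 : ℝ) else 0) +
        (if ω (β e) = 0 ∧ D < (((LT Λ o).filter fun e' => e'.1 = e.1).filter
          fun x => ω (β x) = 0).card then (1 : ℝ) else 0) +
        (if ω (β e) = 0 ∧ D < (((LT Λ o).filter fun e' => e'.2 = e.2).filter
          fun x => ω (β x) = 0).card then (1 : ℝ) else 0)) := by
      refine Finset.sum_le_sum fun ω _ => ?_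
      have n1 : ∀ (p : Prop) [Decidable p], (0 : ℝ) ≤ if p then 1 else 0 := by
        intro p _
        split_ifs <;> norm_num
      by_cases hl : suL o ω e ∧
        (h0 < (univ.filter fun c => Λ < rl o e.1 c ∧ ω (Sum.inl c) = 0).card ∨
         h0 < (univ.filter fun c => Λ < cl o e.2 c ∧ ω (Sum.inl c) = 0).card ∨
         D < ((LT Λ o).filter fun e' => e'.1 = e.1 ∧ suL o ω e').card ∨
         D < ((LT Λ o).filter fun e' => e'.2 = e.2 ∧ suL o ω e').card)
      · rw [if_pos hl]
        have hs := (hβ1 e ω).1 hl.1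
        rcases hl.2 with h1 | h1 | h1 | h1
        · rw [filter_filter, if_pos ⟨hs, h1⟩]
          have := n1 (ω (β e) = 0 ∧ h0 < ((univ.filter fun c => Λ < cl o e.2 c).filter
            fun x => ω (Sum.inl x) = 0).card)
          have := n1 (ω (β e) = 0 ∧ D < (((LT Λ o).filter fun e' => e'.1 = e.1).filter
            fun x => ω (β x) = 0).card)
          have := n1 (ω (β e) = 0 ∧ D < (((LT Λ o).filter fun e' => e'.2 = e.2).filter
            fun x => ω (β x) = 0).card)
          linarith
        · have h2 : h0 < ((univ.filter fun c => Λ < cl o e.2 c).filter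
            fun x => ω (Sum.inl x) = 0).card := by rw [filter_filter]; exact h1
          have := n1 (ω (β e) = 0 ∧ h0 < ((univ.filter fun c => Λ < rl o e.1 c).filter
            fun x => ω (Sum.inl x) = 0).card)
          have := n1 (ω (β e) = 0 ∧ D < (((LT Λ o).filter fun e' => e'.1 = e.1).filter
            fun x => ω (β x) = 0).card)
          have := n1 (ω (β e) = 0 ∧ D < (((LT Λ o).filter fun e' => e'.2 = e.2).filter
            fun x => ω (β x) = 0).card)
          rw [if_pos (⟨hs, h2⟩ : ω (β e) = 0 ∧ h0 < ((univ.filter fun c => Λ < cl o e.2 c).filter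
            fun x => ω (Sum.inl x) = 0).card)]
          linarith
        · have h2 : D < (((LT Λ o).filter fun e' => e'.1 = e.1).filter
            fun x => ω (β x) = 0).card := by
            have h3 : (((LT Λ o).filter fun e' => e'.1 = e.1).filter fun x => ω (β x) = 0) =
                (LT Λ o).filter fun e' => e'.1 = e.1 ∧ suL o ω e' := by
              rw [filter_filter]
              exact filter_congr fun x _ => and_congr Iff.rfl (hβ1 x ω).symm
            rw [h3]; exact h1
          have := n1 (ω (β e) = 0 ∧ h0 < ((univ.filter fun c => Λ < rl o e.1 c).filter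
            fun x => ω (Sum.inl x) = 0).card)
          have := n1 (ω (β e) = 0 ∧ h0 < ((univ.filter fun c => Λ < cl o e.2 c).filter
            fun x => ω (Sum.inl x) = 0).card)
          have := n1 (ω (β e) = 0 ∧ D < (((LT Λ o).filter fun e' => e'.2 = e.2).filter
            fun x => ω (β x) = 0).card)
          rw [if_pos (⟨hs, h2⟩ : ω (β e) = 0 ∧ D < (((LT Λ o).filter fun e' => e'.1 = e.1).filter
            fun x => ω (β x) = 0).card)]
          linarith
        · have h2 : D < (((LT Λ o).filter fun e' => e'.2 = e.2).filter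
            fun x => ω (β x) = 0).card := by
            have h3 : (((LT Λ o).filter fun e' => e'.2 = e.2).filter fun x => ω (β x) = 0) =
                (LT Λ o).filter fun e' => e'.2 = e.2 ∧ suL o ω e' := by
              rw [filter_filter]
              exact filter_congr fun x _ => and_congr Iff.rfl (hβ1 x ω).symm
            rw [h3]; exact h1
          have := n1 (ω (β e) = 0 ∧ h0 < ((univ.filter fun c => Λ < rl o e.1 c).filter
            fun x => ω (Sum.inl x) = 0).card)
          have := n1 (ω (β e) = 0 ∧ h0 < ((univ.filter fun c => Λ < cl o e.2 c).filter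
            fun x => ω (Sum.inl x) = 0).card)
          have := n1 (ω (β e) = 0 ∧ D < (((LT Λ o).filter fun e' => e'.1 = e.1).filter
            fun x => ω (β x) = 0).card)
          rw [if_pos (⟨hs, h2⟩ : ω (β e) = 0 ∧ D < (((LT Λ o).filter fun e' => e'.2 = e.2).filter
            fun x => ω (β x) = 0).card)]
          linarith
      · rw [if_neg hl]
        exact add_nonneg (add_nonneg (add_nonneg (n1 _) (n1 _)) (n1 _)) (n1 _)
    refine hsum.trans ?_
    rw [Finset.sum_add_distrib, Finset.sum_add_distrib, Finset.sum_add_distrib]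
    refine (add_le_add (add_le_add (add_le_add b1 b2) b3) b4).trans ?_
    rw [← mul_add, ← mul_add, ← mul_add]
    refine mul_le_mul_of_nonneg_left ?_ hN0
    rw [← add_div, ← add_div, ← add_div]
    refine div_le_div_of_nonneg_right ?_ hm.le
    have c1 : ((0 : ℝ) + 1) / h0 ≤ 1 / 1024 := by
      rw [zero_add]
      exact one_div_le_one_div_of_le (by norm_num) hhr
    have c2 : ((Λ : ℝ) + Λ) / D ≤ 2 / 1024 := by
      rw [div_le_div_iff₀ hD' (by norm_num)]
      linarith
    linarith
  -- all pairs
  calc _ = ∑ ω : OmL k S m, ∑ e ∈ LT Λ o, (if suL o ω e ∧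
      (h0 < (univ.filter fun c => Λ < rl o e.1 c ∧ ω (Sum.inl c) = 0).card ∨
       h0 < (univ.filter fun c => Λ < cl o e.2 c ∧ ω (Sum.inl c) = 0).card ∨
       D < ((LT Λ o).filter fun e' => e'.1 = e.1 ∧ suL o ω e').card ∨
       D < ((LT Λ o).filter fun e' => e'.2 = e.2 ∧ suL o ω e').card) then (1 : ℝ) else 0) := by
        refine Finset.sum_congr rfl fun ω _ => ?_
        rw [card_filter]
        push_cast
        rfl
    _ = ∑ e ∈ LT Λ o, ∑ ω : OmL k S m, (if suL o ω e ∧
      (h0 < (univ.filter fun c => Λ < rl o e.1 c ∧ ω (Sum.inl c) = 0).card ∨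
       h0 < (univ.filter fun c => Λ < cl o e.2 c ∧ ω (Sum.inl c) = 0).card ∨
       D < ((LT Λ o).filter fun e' => e'.1 = e.1 ∧ suL o ω e').card ∨
       D < ((LT Λ o).filter fun e' => e'.2 = e.2 ∧ suL o ω e').card) then (1 : ℝ) else 0) :=
        Finset.sum_comm
    _ ≤ ∑ _e ∈ LT Λ o, (Fintype.card (OmL k S m) : ℕ) * (1 / 128 / ((m : ℝ) + 1)) :=
        Finset.sum_le_sum hpair
    _ = _ := by
        rw [Finset.sum_const, nsmul_eq_mul]
        ring

end Pool.Agent.T2h38.OP
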