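import Pool.Agent.T2h38.OP.Stm

/-! Project OP: the expected loss in the row case. -/

set_option autoImplicit false

namespace Pool.Agent.T2h38.OP

open Finset Pool.Agent.T2h38.JM

namespace LSR

/-- the first `v` indices -/
def fl (τ v : ℕ) : Finset (Fin τ) := univ.filter fun b => b.1 < v

theorem card_fl {τ v : ℕ} (hv : v ≤ τ) : (fl τ v).card = v := by
  have h1 : (fl τ v).card = (Finset.range v).card := by
    refine card_bij (fun b _ => b.1) (fun b hb => ?_) (fun b _ b' _ h => Fin.ext h)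
      (fun x hx => ?_)
    · exact mem_range.2 (mem_filter.1 hb).2
    · have hx' := mem_range.1 hx
      exact ⟨⟨x, by omega⟩, mem_filter.2 ⟨mem_univ _, hx'⟩, rfl⟩
  rw [h1, card_range]

/-- coordinates for the choice of a cell -/
def ccx {k S : ℕ} (τ a : ℕ) (i : Fin k) (c : Fin S) :
    Finset ((Fin k × Fin S × Fin τ) ⊕ ((Fin k × Fin k) × Fin τ)) :=
  (fl τ (τ - a)).image fun b => Sum.inl (i, c, b)

/-- coordinates for the pair -/
def ct {k : ℕ} (S τ a : ℕ) (e : Fin k × Fin k) :
    Finset ((Fin k × Fin S × Fin τ) ⊕ ((Fin k × Fin k) × Fin τ)) :=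
  (fl τ a).image fun b => Sum.inr (e, b)

/-- coordinates for the survival -/
def co {k S : ℕ} (τ a : ℕ) (o : Fin k × Fin k → Finset (Fin S)) (e : Fin k × Fin k) :
    Finset ((Fin k × Fin S × Fin τ) ⊕ ((Fin k × Fin k) × Fin τ)) :=
  (o e).biUnion (fun c => ccx τ a e.1 c) ∪ ct S τ a e

theorem card_cc {k S τ a : ℕ} (i : Fin k) (c : Fin S) : (ccx τ a i c).card = τ - a := by
  unfold ccx
  rw [card_image_of_injective, card_fl (by omega)]
  intro b b' h
  simpa using h

theorem card_ct {k S τ a : ℕ} (ha : a < τ) (e : Fin k × Fin k) : (ct S τ a e).card = a := by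
  unfold ct
  rw [card_image_of_injective, card_fl (by omega)]
  intro b b' h
  simpa using h

theorem mem_cc {k S τ a : ℕ} {i : Fin k} {c : Fin S}
    {y : (Fin k × Fin S × Fin τ) ⊕ ((Fin k × Fin k) × Fin τ)} (h : y ∈ ccx τ a i c) :
    ∃ b, y = Sum.inl (i, c, b) := by
  obtain ⟨b, _, rfl⟩ := mem_image.1 h
  exact ⟨b, rfl⟩

theorem mem_ct {k S τ a : ℕ} {e : Fin k × Fin k}
    {y : (Fin k × Fin S × Fin τ) ⊕ ((Fin k × Fin k) × Fin τ)} (h : y ∈ ct S τ a e) :
    ∃ b, y = Sum.inr (e, b) := by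
  obtain ⟨b, _, rfl⟩ := mem_image.1 h
  exact ⟨b, rfl⟩

theorem disj_cc_ct {k S τ a : ℕ} (i : Fin k) (c : Fin S) (e : Fin k × Fin k) :
    Disjoint (ccx τ a i c) (ct S τ a e) := by
  rw [disjoint_left]
  intro x hx hx'
  obtain ⟨b, rfl⟩ := mem_cc hx
  obtain ⟨b', hb'⟩ := mem_ct hx'
  simp at hb'

theorem disj_cc {k S τ a : ℕ} {i i' : Fin k} {c c' : Fin S} (h : ¬ (i = i' ∧ c = c')) :
    Disjoint (ccx τ a i c) (ccx τ a i' c') := by
  rw [disjoint_left]
  intro x hx hx'
  obtain ⟨b, rfl⟩ := mem_cc hx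
  obtain ⟨b', hb'⟩ := mem_cc hx'
  simp at hb'
  exact h ⟨hb'.1, hb'.2.1⟩

theorem disj_ct {k S τ a : ℕ} {e e' : Fin k × Fin k} (h : e ≠ e') :
    Disjoint (ct S τ a e) (ct S τ a e') := by
  rw [disjoint_left]
  intro x hx hx'
  obtain ⟨b, rfl⟩ := mem_ct hx
  obtain ⟨b', hb'⟩ := mem_ct hx'
  simp only [Sum.inr.injEq, Prod.mk.injEq] at hb'
  exact h hb'.1

theorem co_eq {k S τ a : ℕ} {o : Fin k × Fin k → Finset (Fin S)} {e : Fin k × Fin k} {c : Fin S}
    (h : o e = {c}) : co τ a o e = ccx τ a e.1 c ∪ ct S τ a e := by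
  unfold co
  rw [h, singleton_biUnion]

theorem card_co {k S τ a : ℕ} (ha : a < τ) {o : Fin k × Fin k → Finset (Fin S)}
    {e : Fin k × Fin k} {c : Fin S} (h : o e = {c}) : (co τ a o e).card = τ := by
  rw [co_eq h, card_union_of_disjoint (disj_cc_ct _ _ _), card_cc, card_ct ha]
  omega

theorem cho_iff {k S τ : ℕ} (a : ℕ) (ω : OmR k S τ) (i : Fin k) (c : Fin S) :
    cho (τ - a) ω i c ↔ ∀ y ∈ ccx τ a i c, ω y = 0 := by
  unfold cho
  constructor
  · intro h y hy
    obtain ⟨b, hb, rfl⟩ := mem_image.1 hy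
    exact h b (mem_filter.1 hb).2
  · intro h b hb
    exact h _ (mem_image.2 ⟨b, mem_filter.2 ⟨mem_univ _, hb⟩, rfl⟩)

theorem su_iff {k S τ : ℕ} (a : ℕ) (o : Fin k × Fin k → Finset (Fin S)) (ω : OmR k S τ)
    (e : Fin k × Fin k) : suR a o ω e ↔ ∀ y ∈ co τ a o e, ω y = 0 := by
  unfold suR thi
  constructor
  · rintro ⟨h1, h2⟩ y hy
    rcases mem_union.1 hy with hy | hy
    · obtain ⟨c, hc, hy⟩ := mem_biUnion.1 hy
      exact (cho_iff a ω e.1 c).1 (h1 c hc) y hy
    · obtain ⟨b, hb, rfl⟩ := mem_image.1 hy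
      exact h2 b (mem_filter.1 hb).2
  · intro h
    refine ⟨fun c hc => (cho_iff a ω e.1 c).2 fun y hy => h y (mem_union_left _
      (mem_biUnion.2 ⟨c, hc, hy⟩)), fun b hb => ?_⟩
    exact h _ (mem_union_right _ (mem_image.2 ⟨b, mem_filter.2 ⟨mem_univ _, hb⟩, rfl⟩))

open Classical in
/-- one kind of loss, by counting pairs -/
theorem mkv {U X : Type} [Fintype U] [DecidableEq U] (h : ℕ) (B : Finset U) (T : Finset X)
    (C : X → Finset U) (wt : X → ℝ) (q : ℝ)
    (hw : ∀ x ∈ T, 1 / (2 : ℝ) ^ (B ∪ C x).card ≤ wt x) (hs : ∑ x ∈ T, wt x ≤ q * h)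
    (hh : 0 < h) :
    (∑ ω : U → Fin 2, (if (∀ y ∈ B, ω y = 0) ∧ h < (T.filter fun x => ∀ y ∈ C x, ω y = 0).card
      then (1 : ℝ) else 0)) ≤ (Fintype.card (U → Fin 2) : ℕ) * q := by
  have hh' : (0 : ℝ) < h := Nat.cast_pos.2 hh
  have hN0 : (0 : ℝ) ≤ (Fintype.card (U → Fin 2) : ℕ) := Nat.cast_nonneg _
  have key : (∑ ω : U → Fin 2, (if (∀ y ∈ B, ω y = 0) ∧
      h < (T.filter fun x => ∀ y ∈ C x, ω y = 0).card
      then (1 : ℝ) else 0)) * h ≤ (Fintype.card (U → Fin 2) : ℕ) * (q * h) := by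
    calc _ ≤ ∑ ω : U → Fin 2, ∑ x ∈ T, (if ∀ y ∈ B ∪ C x, ω y = 0 then (1 : ℝ) else 0) := by
          rw [Finset.sum_mul]
          refine Finset.sum_le_sum fun ω _ => ?_
          by_cases h1 : (∀ y ∈ B, ω y = 0) ∧ h < (T.filter fun x => ∀ y ∈ C x, ω y = 0).card
          · rw [if_pos h1, one_mul]
            have h2 : ∑ x ∈ T, (if ∀ y ∈ B ∪ C x, ω y = 0 then (1 : ℝ) else 0) =
                (((T.filter fun x => ∀ y ∈ C x, ω y = 0).card : ℕ) : ℝ) := by
              rw [Finset.card_filter]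
              push_cast
              refine Finset.sum_congr rfl fun x _ => ?_
              by_cases h3 : ∀ y ∈ C x, ω y = 0
              · rw [if_pos, if_pos h3]
                intro y hy
                rcases mem_union.1 hy with hy | hy
                · exact h1.1 y hy
                · exact h3 y hy
              · rw [if_neg (fun h => h3 fun y hy => h y (mem_union_right _ hy)), if_neg h3]
            rw [h2]
            exact_mod_cast h1.2.le
          · rw [if_neg h1, zero_mul]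
            exact Finset.sum_nonneg fun x _ => by split_ifs <;> norm_num
      _ = ∑ x ∈ T, ∑ ω : U → Fin 2, (if ∀ y ∈ B ∪ C x, ω y = 0 then (1 : ℝ) else 0) :=
          Finset.sum_comm
      _ ≤ ∑ x ∈ T, (Fintype.card (U → Fin 2) : ℕ) * wt x := by
          refine Finset.sum_le_sum fun x hx => ?_
          have h1 := count_zero 1 (B ∪ C x)
          have h2 : (((1 : ℕ) : ℝ) + 1) = 2 := by norm_num
          rw [h2] at h1
          have h3 : (0 : ℝ) < 2 ^ (B ∪ C x).card := by positivity
          have h4 : ∑ ω : U → Fin 2, (if ∀ y ∈ B ∪ C x, ω y = 0 then (1 : ℝ) else 0) =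
              (Fintype.card (U → Fin 2) : ℕ) * (1 / (2 : ℝ) ^ (B ∪ C x).card) := by
            have h5 : (Fintype.card (U → Fin 2) : ℕ) = (2 : ℝ) ^ (B ∪ C x).card *
              ∑ ω : U → Fin 2, (if ∀ y ∈ B ∪ C x, ω y = 0 then (1 : ℝ) else 0) := h1.symm
            rw [h5]
            field_simp
          rw [h4]
          exact mul_le_mul_of_nonneg_left (hw x hx) hN0
      _ = (Fintype.card (U → Fin 2) : ℕ) * ∑ x ∈ T, wt x := by rw [Finset.mul_sum]
      _ ≤ _ := mul_le_mul_of_nonneg_left hs hN0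
  rw [← mul_assoc] at key
  exact le_of_mul_le_mul_right key hh'

/-- the row loads of the cells of `KC` -/
theorem card_KC {k S Λ a τ : ℕ} (hΛ : 0 < Λ) (ha : a < τ) (hk : k ≤ Λ * 2 ^ τ)
    (o : Fin k × Fin k → Finset (Fin S)) (ho : ∀ e, (o e).card ≤ 1) (i : Fin k) :
    (KC Λ a o i).card ≤ 2 ^ (τ - a) := by
  classical
  have h1 : ∑ c, rl o i c ≤ k := by
    calc ∑ c, rl o i c = ∑ c, ∑ j, (if c ∈ o (i, j) then 1 else 0) := by
          refine Finset.sum_congr rfl fun c _ => ?_
          unfold rl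
          rw [card_filter]
      _ = ∑ j, ∑ c, (if c ∈ o (i, j) then 1 else 0) := Finset.sum_comm
      _ = ∑ j, (o (i, j)).card := by
          refine Finset.sum_congr rfl fun j _ => ?_
          rw [← card_filter, filter_mem_eq_inter, univ_inter]
      _ ≤ ∑ _j : Fin k, 1 := Finset.sum_le_sum fun j _ => ho (i, j)
      _ = k := by simp
  have h2 : (KC Λ a o i).card * (Λ * 2 ^ a) ≤ ∑ c, rl o i c := by
    calc (KC Λ a o i).card * (Λ * 2 ^ a)
        ≤ ∑ c ∈ KC Λ a o i, rl o i c := by
          rw [← smul_eq_mul]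
          exact Finset.card_nsmul_le_sum _ _ _ fun c hc => (mem_filter.1 hc).2.1.le
      _ ≤ ∑ c, rl o i c := Finset.sum_le_sum_of_subset (filter_subset _ _)
  have h3 : (2 : ℕ) ^ τ = 2 ^ (τ - a) * 2 ^ a := by
    rw [← pow_add]
    congr 1
    omega
  have h4 : (KC Λ a o i).card * (Λ * 2 ^ a) ≤ 2 ^ (τ - a) * (Λ * 2 ^ a) := by
    calc _ ≤ Λ * 2 ^ τ := (h2.trans h1).trans hk
      _ = _ := by rw [h3]; ring
  exact Nat.le_of_mul_le_mul_right h4 (Nat.mul_pos hΛ (by positivity))

end LSR

open LSR in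
theorem t_LSR : S_LSR := by
  classical
  intro k S τ Λ a D h0 ha hΛ hD hh0 hk o ho
  have hN0 : (0 : ℝ) ≤ (Fintype.card (OmR k S τ) : ℕ) := Nat.cast_nonneg _
  have hcell : ∀ e ∈ RHa Λ a o, ∃ c, o e = {c} ∧ c ∈ KC Λ a o e.1 := by
    intro e he
    obtain ⟨c, hc, hK⟩ := (mem_filter.1 he).2
    refine ⟨c, ?_, hK⟩
    refine eq_singleton_iff_unique_mem.2 ⟨hc, fun c' hc' => card_le_one.1 (ho e) c' hc' c hc⟩
  have hD0 : 0 < D := by omega
  have hD' : (0 : ℝ) < D := by exact_mod_cast hD0
  have hΛr : (1024 : ℝ) * Λ ≤ D := by exact_mod_cast hD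
  have hΛ1 : (1 : ℝ) ≤ Λ := by exact_mod_cast hΛ
  have hhr : (1024 : ℝ) ≤ h0 := by exact_mod_cast hh0
  have hkr : (k : ℝ) ≤ Λ * (2 : ℝ) ^ τ := by exact_mod_cast hk
  have hp : (0 : ℝ) < 2 ^ τ := by positivity
  have hpa : (0 : ℝ) < 2 ^ a := by positivity
  have hpd : (0 : ℝ) < 2 ^ (τ - a) := by positivity
  -- monotonicity
  have hmono : ∀ {m n : ℕ}, m ≤ n → 1 / (2 : ℝ) ^ n ≤ 1 / 2 ^ m := by
    intro m n h
    exact one_div_le_one_div_of_le (by positivity) (pow_le_pow_right₀ (by norm_num) h)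
  -- one pair
  have hpair : ∀ e ∈ RHa Λ a o, ∑ ω : OmR k S τ, (if suR a o ω e ∧
    (h0 < ((KC Λ a o e.1).filter fun c => cho (τ - a) ω e.1 c).card ∨
     D < ((RHa Λ a o).filter fun e' => e'.1 = e.1 ∧ suR a o ω e').card ∨
     D < ((RHa Λ a o).filter fun e' => e'.2 = e.2 ∧ suR a o ω e').card) then (1 : ℝ) else 0) ≤
      (Fintype.card (OmR k S τ) : ℕ) * (1 / 128 / 2 ^ τ) := by
    intro e he
    obtain ⟨c, hoc, hcK⟩ := hcell e he
    have hce := card_co ha hoc
    -- first term
    have b1 := mkv h0 (co τ a o e) (KC Λ a o e.1) (fun c' => ccx τ a e.1 c')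
      (fun c' => (if c' = c then 1 / (2 : ℝ) ^ τ else 0) + 1 / 2 ^ τ / 2 ^ (τ - a))
      (2 / 1024 / 2 ^ τ) (by
        intro c' _
        by_cases h : c' = c
        · rw [if_pos h]
          have h1 : 1 / (2 : ℝ) ^ (co τ a o e ∪ ccx τ a e.1 c').card ≤ 1 / 2 ^ τ :=
            hmono (hce.symm.le.trans (card_le_card subset_union_left))
          have h2 : (0 : ℝ) ≤ 1 / 2 ^ τ / 2 ^ (τ - a) := by positivity
          linarith
        · rw [if_neg h, zero_add]
          have h1 : (co τ a o e ∪ ccx τ a e.1 c').card = τ + (τ - a) := by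
            rw [card_union_of_disjoint, hce, card_cc]
            rw [co_eq hoc, disjoint_union_left]
            exact ⟨disj_cc fun h' => h h'.2.symm, (disj_cc_ct _ _ _).symm⟩
          rw [h1, pow_add, div_div]) (by
        rw [Finset.sum_add_distrib, Finset.sum_ite_eq', if_pos hcK, Finset.sum_const,
          nsmul_eq_mul]
        have h1 : (((KC Λ a o e.1).card : ℕ) : ℝ) ≤ 2 ^ (τ - a) := by
          exact_mod_cast card_KC hΛ ha hk o ho e.1
        have h2 : (((KC Λ a o e.1).card : ℕ) : ℝ) * (1 / 2 ^ τ / 2 ^ (τ - a)) ≤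
            2 ^ (τ - a) * (1 / 2 ^ τ / 2 ^ (τ - a)) :=
          mul_le_mul_of_nonneg_right h1 (by positivity)
        have h3 : (2 : ℝ) ^ (τ - a) * (1 / 2 ^ τ / 2 ^ (τ - a)) = 1 / 2 ^ τ := by
          field_simp
        have h4 : (2 : ℝ) / 1024 / 2 ^ τ * 1024 ≤ 2 / 1024 / 2 ^ τ * h0 :=
          mul_le_mul_of_nonneg_left hhr (by positivity)
        have h5 : (2 : ℝ) / 1024 / 2 ^ τ * 1024 = 1 / 2 ^ τ + 1 / 2 ^ τ := by ring
        rw [h3] at h2
        linarith) (by omega)
    -- second term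
    have b2 := mkv D (co τ a o e) ((RHa Λ a o).filter fun e' => e'.1 = e.1) (fun e' => co τ a o e')
      (fun e' => (if e' = e then 1 / (2 : ℝ) ^ τ else 0) +
        (if c ∈ o e' then 1 / 2 ^ τ / 2 ^ a else 0) + 1 / 2 ^ τ / 2 ^ τ)
      (4 / 1024 / 2 ^ τ) (by
        intro e' he'
        obtain ⟨he1, he2⟩ := mem_filter.1 he'
        obtain ⟨c', hoc', hcK'⟩ := hcell e' he1
        have n1 : (0 : ℝ) ≤ (if e' = e then 1 / (2 : ℝ) ^ τ else 0) := by
          split_ifs <;> positivity
        have n2 : (0 : ℝ) ≤ (if c ∈ o e' then 1 / 2 ^ τ / 2 ^ a else 0) := by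
          split_ifs <;> positivity
        have n3 : (0 : ℝ) ≤ 1 / 2 ^ τ / 2 ^ τ := by positivity
        by_cases h : e' = e
        · have h1 : 1 / (2 : ℝ) ^ (co τ a o e ∪ co τ a o e').card ≤ 1 / 2 ^ τ :=
            hmono (hce.symm.le.trans (card_le_card subset_union_left))
          rw [if_pos h] at n1 ⊢
          linarith
        · by_cases hc : c ∈ o e'
          · have h1 : τ + a ≤ (co τ a o e ∪ co τ a o e').card := by
              have h2 : co τ a o e ∪ ct S τ a e' ⊆ co τ a o e ∪ co τ a o e' := by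
                refine union_subset_union_right ?_
                rw [co_eq hoc']
                exact subset_union_right
              refine le_trans (le_of_eq ?_) (card_le_card h2)
              rw [card_union_of_disjoint, hce, card_ct ha]
              rw [co_eq hoc, disjoint_union_left]
              exact ⟨disj_cc_ct _ _ _, disj_ct fun h' => h h'.symm⟩
            have h3 := hmono h1
            rw [pow_add, ← div_div] at h3
            rw [if_pos hc] at n2 ⊢
            linarith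
          · have h1 : (co τ a o e ∪ co τ a o e').card = τ + τ := by
              rw [card_union_of_disjoint, hce, card_co ha hoc']
              rw [co_eq hoc, co_eq hoc', disjoint_union_left, disjoint_union_right,
                disjoint_union_right]
              refine ⟨⟨disj_cc fun h' => hc ?_, disj_cc_ct _ _ _⟩, (disj_cc_ct _ _ _).symm,
                disj_ct fun h' => h h'.symm⟩
              rw [hoc', h'.2]
              exact mem_singleton_self _
            rw [h1, pow_add, ← div_div]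
            linarith) (by
        rw [Finset.sum_add_distrib, Finset.sum_add_distrib, Finset.sum_ite_eq',
          ← Finset.sum_filter, Finset.sum_const, Finset.sum_const, nsmul_eq_mul, nsmul_eq_mul]
        have h1 : (if e ∈ (RHa Λ a o).filter (fun e' => e'.1 = e.1) then 1 / (2 : ℝ) ^ τ else 0) ≤
            1 / 2 ^ τ := by
          split_ifs
          · exact le_rfl
          · positivity
        have h2 : ((((RHa Λ a o).filter fun e' => e'.1 = e.1).filter fun e' => c ∈ o e').card : ℝ)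
            ≤ 2 * Λ * 2 ^ a := by
          have h3 : (((RHa Λ a o).filter fun e' => e'.1 = e.1).filter fun e' => c ∈ o e').card ≤
              Λ * 2 ^ (a + 1) := by
            refine le_trans ?_ (mem_filter.1 hcK).2.2
            unfold rl
            refine card_le_card_of_injOn (fun x => x.2) (fun x hx => ?_) (fun x hx y hy hxy => ?_)
            · have h3 := (mem_filter.1 (mem_coe.1 hx)).2
              have h4 := (mem_filter.1 (mem_filter.1 (mem_coe.1 hx)).1).2
              refine mem_coe.2 (mem_filter.2 ⟨mem_univ _, ?_⟩)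
              rw [← h4]
              exact h3
            · have h4 := (mem_filter.1 (mem_filter.1 (mem_coe.1 hx)).1).2
              have h5 := (mem_filter.1 (mem_filter.1 (mem_coe.1 hy)).1).2
              exact Prod.ext (h4.trans h5.symm) hxy
          have h4 : ((((RHa Λ a o).filter fun e' => e'.1 = e.1).filter
              fun e' => c ∈ o e').card : ℝ) ≤ ((Λ * 2 ^ (a + 1) : ℕ) : ℝ) := by exact_mod_cast h3
          refine h4.trans (le_of_eq ?_)
          push_cast
          rw [pow_succ]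
          ring
        have h3 : (((RHa Λ a o).filter fun e' => e'.1 = e.1).card : ℝ) ≤ Λ * 2 ^ τ := by
          refine le_trans ?_ hkr
          have h1 : ((RHa Λ a o).filter fun e' => e'.1 = e.1).card ≤
              (univ : Finset (Fin k)).card := by
            refine card_le_card_of_injOn (fun x => x.2) (fun x hx => mem_coe.2 (mem_univ _))
              (fun x hx y hy hxy => ?_)
            have h4 := (mem_filter.1 (mem_coe.1 hx)).2
            have h5 := (mem_filter.1 (mem_coe.1 hy)).2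
            exact Prod.ext (h4.trans h5.symm) hxy
          rw [card_univ, Fintype.card_fin] at h1
          exact_mod_cast h1
        have h4 : ((((RHa Λ a o).filter fun e' => e'.1 = e.1).filter fun e' => c ∈ o e').card : ℝ)
            * (1 / 2 ^ τ / 2 ^ a) ≤ 2 * Λ * 2 ^ a * (1 / 2 ^ τ / 2 ^ a) :=
          mul_le_mul_of_nonneg_right h2 (by positivity)
        have h5 : (((RHa Λ a o).filter fun e' => e'.1 = e.1).card : ℝ) * (1 / 2 ^ τ / 2 ^ τ) ≤
            Λ * 2 ^ τ * (1 / 2 ^ τ / 2 ^ τ) :=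
          mul_le_mul_of_nonneg_right h3 (by positivity)
        have h6 : 2 * (Λ : ℝ) * 2 ^ a * (1 / 2 ^ τ / 2 ^ a) = 2 * Λ * (1 / 2 ^ τ) := by
          field_simp
        have h7 : (Λ : ℝ) * 2 ^ τ * (1 / 2 ^ τ / 2 ^ τ) = Λ * (1 / 2 ^ τ) := by
          field_simp
        have h8 : (4 : ℝ) / 1024 / 2 ^ τ * (1024 * Λ) ≤ 4 / 1024 / 2 ^ τ * D :=
          mul_le_mul_of_nonneg_left hΛr (by positivity)
        have h9 : (4 : ℝ) / 1024 / 2 ^ τ * (1024 * Λ) = 4 * Λ * (1 / 2 ^ τ) := by ring
        have h10 : 1 * (1 / (2 : ℝ) ^ τ) ≤ Λ * (1 / 2 ^ τ) :=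
          mul_le_mul_of_nonneg_right hΛ1 (by positivity)
        rw [h6] at h4
        rw [h7] at h5
        linarith) hD0
    -- third term
    have b3 := mkv D (co τ a o e) ((RHa Λ a o).filter fun e' => e'.2 = e.2) (fun e' => co τ a o e')
      (fun e' => (if e' = e then 1 / (2 : ℝ) ^ τ else 0) + 1 / 2 ^ τ / 2 ^ τ)
      (2 / 1024 / 2 ^ τ) (by
        intro e' he'
        obtain ⟨he1, he2⟩ := mem_filter.1 he'
        obtain ⟨c', hoc', hcK'⟩ := hcell e' he1
        have n3 : (0 : ℝ) ≤ 1 / 2 ^ τ / 2 ^ τ := by positivity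
        by_cases h : e' = e
        · have h1 : 1 / (2 : ℝ) ^ (co τ a o e ∪ co τ a o e').card ≤ 1 / 2 ^ τ :=
            hmono (hce.symm.le.trans (card_le_card subset_union_left))
          rw [if_pos h]
          linarith
        · have h1 : (co τ a o e ∪ co τ a o e').card = τ + τ := by
            rw [card_union_of_disjoint, hce, card_co ha hoc']
            rw [co_eq hoc, co_eq hoc', disjoint_union_left, disjoint_union_right,
              disjoint_union_right]
            refine ⟨⟨disj_cc fun h' => h ?_, disj_cc_ct _ _ _⟩, (disj_cc_ct _ _ _).symm,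
              disj_ct fun h' => h h'.symm⟩
            exact Prod.ext h'.1.symm he2
          rw [h1, pow_add, ← div_div, if_neg h, zero_add]) (by
        rw [Finset.sum_add_distrib, Finset.sum_ite_eq', Finset.sum_const, nsmul_eq_mul]
        have h1 : (if e ∈ (RHa Λ a o).filter (fun e' => e'.2 = e.2) then 1 / (2 : ℝ) ^ τ else 0) ≤
            1 / 2 ^ τ := by
          split_ifs
          · exact le_rfl
          · positivity
        have h3 : (((RHa Λ a o).filter fun e' => e'.2 = e.2).card : ℝ) ≤ Λ * 2 ^ τ := by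
          refine le_trans ?_ hkr
          have h1 : ((RHa Λ a o).filter fun e' => e'.2 = e.2).card ≤
              (univ : Finset (Fin k)).card := by
            refine card_le_card_of_injOn (fun x => x.1) (fun x hx => mem_coe.2 (mem_univ _))
              (fun x hx y hy hxy => ?_)
            have h4 := (mem_filter.1 (mem_coe.1 hx)).2
            have h5 := (mem_filter.1 (mem_coe.1 hy)).2
            exact Prod.ext hxy (h4.trans h5.symm)
          rw [card_univ, Fintype.card_fin] at h1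
          exact_mod_cast h1
        have h5 : (((RHa Λ a o).filter fun e' => e'.2 = e.2).card : ℝ) * (1 / 2 ^ τ / 2 ^ τ) ≤
            Λ * 2 ^ τ * (1 / 2 ^ τ / 2 ^ τ) :=
          mul_le_mul_of_nonneg_right h3 (by positivity)
        have h7 : (Λ : ℝ) * 2 ^ τ * (1 / 2 ^ τ / 2 ^ τ) = Λ * (1 / 2 ^ τ) := by
          field_simp
        have h8 : (2 : ℝ) / 1024 / 2 ^ τ * (1024 * Λ) ≤ 2 / 1024 / 2 ^ τ * D :=
          mul_le_mul_of_nonneg_left hΛr (by positivity)
        have h9 : (2 : ℝ) / 1024 / 2 ^ τ * (1024 * Λ) = 2 * Λ * (1 / 2 ^ τ) := by ring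
        have h10 : 1 * (1 / (2 : ℝ) ^ τ) ≤ Λ * (1 / 2 ^ τ) :=
          mul_le_mul_of_nonneg_right hΛ1 (by positivity)
        rw [h7] at h5
        linarith) hD0
    have hsum : ∑ ω : OmR k S τ, (if suR a o ω e ∧
      (h0 < ((KC Λ a o e.1).filter fun c => cho (τ - a) ω e.1 c).card ∨
       D < ((RHa Λ a o).filter fun e' => e'.1 = e.1 ∧ suR a o ω e').card ∨
       D < ((RHa Λ a o).filter fun e' => e'.2 = e.2 ∧ suR a o ω e').card) then (1 : ℝ) else 0) ≤
      ∑ ω : OmR k S τ, ((if (∀ y ∈ co τ a o e, ω y = 0) ∧ h0 < ((KC Λ a o e.1).filter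
          fun x => ∀ y ∈ ccx τ a e.1 x, ω y = 0).card then (1 : ℝ) else 0) +
        (if (∀ y ∈ co τ a o e, ω y = 0) ∧ D < (((RHa Λ a o).filter fun e' => e'.1 = e.1).filter
          fun x => ∀ y ∈ co τ a o x, ω y = 0).card then (1 : ℝ) else 0) +
        (if (∀ y ∈ co τ a o e, ω y = 0) ∧ D < (((RHa Λ a o).filter fun e' => e'.2 = e.2).filter
          fun x => ∀ y ∈ co τ a o x, ω y = 0).card then (1 : ℝ) else 0)) := by
      refine Finset.sum_le_sum fun ω _ => ?_
      have n1 : ∀ (p : Prop) [Decidable p], (0 : ℝ) ≤ if p then 1 else 0 := by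
        intro p _
        split_ifs <;> norm_num
      by_cases hl : suR a o ω e ∧
        (h0 < ((KC Λ a o e.1).filter fun c => cho (τ - a) ω e.1 c).card ∨
         D < ((RHa Λ a o).filter fun e' => e'.1 = e.1 ∧ suR a o ω e').card ∨
         D < ((RHa Λ a o).filter fun e' => e'.2 = e.2 ∧ suR a o ω e').card)
      · rw [if_pos hl]
        have hs := (su_iff a o ω e).1 hl.1
        have k1 := n1 ((∀ y ∈ co τ a o e, ω y = 0) ∧ h0 < ((KC Λ a o e.1).filter
          fun x => ∀ y ∈ ccx τ a e.1 x, ω y = 0).card)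
        have k2 := n1 ((∀ y ∈ co τ a o e, ω y = 0) ∧
          D < (((RHa Λ a o).filter fun e' => e'.1 = e.1).filter
          fun x => ∀ y ∈ co τ a o x, ω y = 0).card)
        have k3 := n1 ((∀ y ∈ co τ a o e, ω y = 0) ∧
          D < (((RHa Λ a o).filter fun e' => e'.2 = e.2).filter
          fun x => ∀ y ∈ co τ a o x, ω y = 0).card)
        rcases hl.2 with h1 | h1 | h1
        · have h2 : h0 < ((KC Λ a o e.1).filter fun x => ∀ y ∈ ccx τ a e.1 x, ω y = 0).card := by
            have h3 : ((KC Λ a o e.1).filter fun x => ∀ y ∈ ccx τ a e.1 x, ω y = 0) =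
                (KC Λ a o e.1).filter fun c => cho (τ - a) ω e.1 c :=
              filter_congr fun x _ => (cho_iff a ω e.1 x).symm
            rw [h3]; exact h1
          rw [if_pos (⟨hs, h2⟩ : (∀ y ∈ co τ a o e, ω y = 0) ∧ h0 < ((KC Λ a o e.1).filter
            fun x => ∀ y ∈ ccx τ a e.1 x, ω y = 0).card)]
          linarith
        · have h2 : D < (((RHa Λ a o).filter fun e' => e'.1 = e.1).filter
              fun x => ∀ y ∈ co τ a o x, ω y = 0).card := by
            have h3 : (((RHa Λ a o).filter fun e' => e'.1 = e.1).filter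
                fun x => ∀ y ∈ co τ a o x, ω y = 0) =
                (RHa Λ a o).filter fun e' => e'.1 = e.1 ∧ suR a o ω e' := by
              rw [filter_filter]
              exact filter_congr fun x _ => and_congr Iff.rfl (su_iff a o ω x).symm
            rw [h3]; exact h1
          rw [if_pos (⟨hs, h2⟩ : (∀ y ∈ co τ a o e, ω y = 0) ∧
            D < (((RHa Λ a o).filter fun e' => e'.1 = e.1).filter
            fun x => ∀ y ∈ co τ a o x, ω y = 0).card)]
          linarith
        · have h2 : D < (((RHa Λ a o).filter fun e' => e'.2 = e.2).filter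
              fun x => ∀ y ∈ co τ a o x, ω y = 0).card := by
            have h3 : (((RHa Λ a o).filter fun e' => e'.2 = e.2).filter
                fun x => ∀ y ∈ co τ a o x, ω y = 0) =
                (RHa Λ a o).filter fun e' => e'.2 = e.2 ∧ suR a o ω e' := by
              rw [filter_filter]
              exact filter_congr fun x _ => and_congr Iff.rfl (su_iff a o ω x).symm
            rw [h3]; exact h1
          rw [if_pos (⟨hs, h2⟩ : (∀ y ∈ co τ a o e, ω y = 0) ∧
            D < (((RHa Λ a o).filter fun e' => e'.2 = e.2).filter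
            fun x => ∀ y ∈ co τ a o x, ω y = 0).card)]
          linarith
      · rw [if_neg hl]
        exact add_nonneg (add_nonneg (n1 _) (n1 _)) (n1 _)
    refine hsum.trans ?_
    rw [Finset.sum_add_distrib, Finset.sum_add_distrib]
    refine (add_le_add (add_le_add b1 b2) b3).trans (le_of_eq ?_)
    ring
  -- all pairs
  calc _ = ∑ ω : OmR k S τ, ∑ e ∈ RHa Λ a o, (if suR a o ω e ∧
    (h0 < ((KC Λ a o e.1).filter fun c => cho (τ - a) ω e.1 c).card ∨
     D < ((RHa Λ a o).filter fun e' => e'.1 = e.1 ∧ suR a o ω e').card ∨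
     D < ((RHa Λ a o).filter fun e' => e'.2 = e.2 ∧ suR a o ω e').card) then (1 : ℝ) else 0) := by
        refine Finset.sum_congr rfl fun ω _ => ?_
        rw [card_filter]
        push_cast
        rfl
    _ = ∑ e ∈ RHa Λ a o, ∑ ω : OmR k S τ, (if suR a o ω e ∧
    (h0 < ((KC Λ a o e.1).filter fun c => cho (τ - a) ω e.1 c).card ∨
     D < ((RHa Λ a o).filter fun e' => e'.1 = e.1 ∧ suR a o ω e').card ∨
     D < ((RHa Λ a o).filter fun e' => e'.2 = e.2 ∧ suR a o ω e').card) then (1 : ℝ) else 0) :=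
        Finset.sum_comm
    _ ≤ ∑ _e ∈ RHa Λ a o, ((Fintype.card (OmR k S τ) : ℕ) : ℝ) * (1 / 128 / 2 ^ τ) :=
        Finset.sum_le_sum hpair
    _ = _ := by
        rw [Finset.sum_const, nsmul_eq_mul]
        ring

end Pool.Agent.T2h38.OP
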