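import Pool.Agent.T2h38.OP.Stm

/-!
# Project OP, task ROA (helper58)
-/

set_option autoImplicit false

namespace Pool.Agent.T2h38.OP

open Finset Pool.Agent.T2h38.JM

open Classical in
theorem t_ROA : S_ROA := by
  intro hADV hCNR hWGT hGNR hLSR α A _ _ k S V W r L ε hL hε d q a a' φ T D v0 J hSC Λ τ b h0 hb hΛ hD
    hh0 hk hk1
  have ho : ∀ z e, (cc q a a' φ T J z e).card ≤ 1 := by
    intro z e
    have := run_card (J z) (a (φ z) e.1 (z.1 e.1)) (a' (φ z) e.2 (z.2 e.2))
      (q (φ z) e.1 e.2) T 1 ∅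
    rw [Finset.card_empty, zero_add] at this
    exact this
  have hl : 0 < Real.log L := Real.log_pos hL
  obtain ⟨o, hoo⟩ : ∃ o : (Fin k → α) × (Fin k → α) → Fin k × Fin k → Finset (Fin S),
    o = cc q a a' φ T J := ⟨_, rfl⟩
  obtain ⟨w, hww⟩ : ∃ w : (Fin k → α) × (Fin k → α) → Fin k × Fin k → ℝ,
    w = ww L ε d q a a' φ T J := ⟨_, rfl⟩
  have hwL : ∀ z e, w z e ≤ Real.log L := by
    intro z e
    rw [hww]
    exact (hWGT α A k S V W r L ε hL hε d q a a' φ T J z e).1
  have hwlog : ∀ z e, w z e ≤ Real.log (Real.exp (-ε) *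
      kk L (1 / 2) d (oo q a a' φ T J z e).1 (z.1 e.1) (z.2 e.2)) := by
    intro z e
    rw [hww]
    exact (hWGT α A k S V W r L ε hL hε d q a a' φ T J z e).2
  rw [← hoo] at ho ⊢
  rw [← hww]
  obtain ⟨Zc, hZc⟩ : ∃ Zc : ℝ, Zc = ((Fintype.card ((Fin k → α) × (Fin k → α)) : ℕ) : ℝ) := ⟨_, rfl⟩
  rw [← hZc]
  obtain ⟨LB, hLB⟩ : ∃ LB : ℝ, LB = Real.log 2 + k * h0 * Real.log ((S : ℝ) * V + 1) +
    2 * k * Real.log 2 + Real.log r := ⟨_, rfl⟩
  rw [← hLB]
  -- the lost pairs
  obtain ⟨lo, hlo⟩ : ∃ lo : OmR k S τ → (Fin k → α) × (Fin k → α) → Finset (Fin k × Fin k),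
    lo = fun ω z => (RHa Λ b (o z)).filter fun e => suR b (o z) ω e ∧
      (h0 < ((KC Λ b (o z) e.1).filter fun c => cho (τ - b) ω e.1 c).card ∨
       D < ((RHa Λ b (o z)).filter fun e' => e'.1 = e.1 ∧ suR b (o z) ω e').card ∨
       D < ((RHa Λ b (o z)).filter fun e' => e'.2 = e.2 ∧ suR b (o z) ω e').card) := ⟨_, rfl⟩
  have hsample : ∀ ω : OmR k S τ,
      ∑ z, (∑ e ∈ (RHa Λ b (o z)).filter (fun e => suR b (o z) ω e), w z e -
        Real.log L * (((lo ω z).card : ℕ) : ℝ)) ≤ Zc * LB := by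
    intro ω
    obtain ⟨F, hF⟩ : ∃ F : (Fin k → α) × (Fin k → α) → Fin k → Finset (Fin S),
      F = fun z i => (KC Λ b (o z) i).filter fun c => cho (τ - b) ω i c := ⟨_, rfl⟩
    obtain ⟨Ch, hCh⟩ : ∃ Ch : (Fin k → α) × (Fin k → α) → Fin k → Finset (Fin S),
      Ch = fun z i => if (F z i).card ≤ h0 then F z i else ∅ := ⟨_, rfl⟩
    have hChc : ∀ z i, (Ch z i).card ≤ h0 := by
      intro z i
      simp only [hCh]
      split_ifs with h
      · exact h
      · simp
    have hChF : ∀ z i, Ch z i ⊆ F z i := by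
      intro z i
      simp only [hCh]
      split_ifs with h
      · exact Finset.Subset.refl _
      · exact Finset.empty_subset _
    obtain ⟨R, hR⟩ : ∃ R : (Fin k → α) × (Fin k → α) → Finset (Fin k),
      R = fun z => univ.filter fun i => (F z i).card ≤ h0 ∧
        ((RHa Λ b (o z)).filter fun e' => e'.1 = i ∧ suR b (o z) ω e').card ≤ D := ⟨_, rfl⟩
    obtain ⟨C, hC⟩ : ∃ C : (Fin k → α) × (Fin k → α) → Finset (Fin k),
      C = fun z => univ.filter fun j =>
        ((RHa Λ b (o z)).filter fun e' => e'.2 = j ∧ suR b (o z) ω e').card ≤ D := ⟨_, rfl⟩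
    obtain ⟨P, hP⟩ : ∃ P : (Fin k → Finset (Fin S)) → Fin k × Fin k → Finset (Fin S) → Bool,
      P = fun γ e acc => decide (acc.Nonempty ∧ acc ⊆ γ e.1 ∧ thi b ω e) := ⟨_, rfl⟩
    have hP1 : ∀ z e, P (Ch z) e (o z e) = true → e ∈ RHa Λ b (o z) ∧ suR b (o z) ω e := by
      intro z e h
      simp only [hP, decide_eq_true_eq] at h
      obtain ⟨⟨c, hc⟩, hsub, hthi⟩ := h
      have hc2 := hChF z e.1 (hsub hc)
      rw [hF] at hc2
      simp only [mem_filter] at hc2
      refine ⟨?_, ?_, hthi⟩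
      · unfold RHa
        rw [mem_filter]
        exact ⟨mem_univ _, c, hc, hc2.1⟩
      · intro c' hc'
        have hc3 := hChF z e.1 (hsub hc')
        rw [hF] at hc3
        simp only [mem_filter] at hc3
        exact hc3.2
    have hP2 : ∀ z e, (F z e.1).card ≤ h0 → e ∈ RHa Λ b (o z) → suR b (o z) ω e →
        P (Ch z) e (o z e) = true := by
      intro z e hFc he hsu
      simp only [hP, decide_eq_true_eq]
      unfold RHa at he
      rw [mem_filter] at he
      obtain ⟨-, c, hc, hcK⟩ := he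
      refine ⟨⟨c, hc⟩, ?_, hsu.2⟩
      intro c' hc'
      have hcc : c' = c := Finset.card_le_one.1 (ho z e) c' hc' c hc
      simp only [hCh]
      rw [if_pos hFc, hF]
      simp only [mem_filter]
      rw [hcc]
      exact ⟨hcK, hsu.1 c hc⟩
    have hadv := hADV α A (Fin k → Finset (Fin S)) k S V W r L ε hL.le d q a a' φ T D J hSC P
      (fun z => ((fun c => if ∃ i, c ∈ Ch z i then J z c else v0 : Fin S → Fin V), Ch z, R z, C z))
      ((S * V + 1) ^ (k * h0) * (2 ^ k * 2 ^ k))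
      (by convert hCNR _ k S V h0 v0 J Ch hChc R C)
      (by
        intro z e acc hacc c hc
        simp only [hP, decide_eq_true_eq] at hacc
        show (if ∃ i, c ∈ Ch z i then J z c else v0) = J z c
        rw [if_pos ⟨e.1, hacc.2.1 hc⟩])
      (by
        intro z i hi
        have hi2 : i ∈ R z := hi
        rw [hR] at hi2
        simp only [mem_filter, mem_univ, true_and] at hi2
        refine le_trans (Finset.card_le_card ?_) hi2.2
        intro e he
        rw [mem_filter] at he ⊢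
        have h2 : P (Ch z) e (o z e) = true := by
          rw [hoo]
          exact he.2.2
        exact ⟨(hP1 z e h2).1, he.2.1, (hP1 z e h2).2⟩)
      (by
        intro z j hj
        have hj2 : j ∈ C z := hj
        rw [hC] at hj2
        simp only [mem_filter, mem_univ, true_and] at hj2
        refine le_trans (Finset.card_le_card ?_) hj2
        intro e he
        rw [mem_filter] at he ⊢
        have h2 : P (Ch z) e (o z e) = true := by
          rw [hoo]
          exact he.2.2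
        exact ⟨(hP1 z e h2).1, he.2.1, (hP1 z e h2).2⟩)
    have hright : Real.log (2 * ((((S * V + 1) ^ (k * h0) * (2 ^ k * 2 ^ k) : ℕ) : ℝ) *
        ((r : ℕ) : ℝ))) = LB := by
      have hr : (0 : ℝ) < r := by
        have z0 : (Fin k → α) × (Fin k → α) := Classical.arbitrary _
        have : 0 < r := lt_of_le_of_lt (Nat.zero_le _) (φ z0).2
        exact_mod_cast this
      rw [hLB]
      push_cast
      rw [Real.log_mul (by norm_num) (by positivity), Real.log_mul (by positivity) (by positivity),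
        Real.log_mul (by positivity) (by positivity), Real.log_mul (by positivity) (by positivity),
        Real.log_pow, Real.log_pow]
      push_cast
      ring
    rw [hright, ← hZc] at hadv
    refine le_trans (Finset.sum_le_sum fun z _ => ?_) hadv
    -- one input
    show ∑ e ∈ (RHa Λ b (o z)).filter (fun e => suR b (o z) ω e), w z e -
        Real.log L * (((lo ω z).card : ℕ) : ℝ) ≤
      ∑ e ∈ (R z ×ˢ C z).filter (fun e => P (Ch z) e (cc q a a' φ T J z e) = true),
        Real.log (Real.exp (-ε) * kk L (1 / 2) d (oo q a a' φ T J z e).1 (z.1 e.1) (z.2 e.2))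
    rw [← hoo]
    have hmem : ∀ e ∈ (RHa Λ b (o z)).filter (fun e => suR b (o z) ω e),
        (e ∉ R z ×ˢ C z ↔ e ∈ lo ω z) := by
      intro e he
      rw [mem_filter] at he
      rw [hlo, hR, hC]
      simp only [mem_product, mem_filter, mem_univ, true_and, hF]
      constructor
      · intro h
        refine ⟨he.1, he.2, ?_⟩
        by_contra hcon
        push Not at hcon
        exact h ⟨⟨hcon.1, hcon.2.1⟩, hcon.2.2⟩
      · rintro ⟨-, -, h⟩ ⟨⟨h1, h2⟩, h3⟩
        rcases h with h | h | h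
        · omega
        · omega
        · omega
    have hset : ((RHa Λ b (o z)).filter (fun e => suR b (o z) ω e)).filter (fun e => e ∈ R z ×ˢ C z) =
        (R z ×ˢ C z).filter (fun e => P (Ch z) e (o z e) = true) := by
      ext e
      simp only [mem_filter]
      constructor
      · rintro ⟨⟨h1, h2⟩, h3⟩
        refine ⟨h3, ?_⟩
        rw [mem_product] at h3
        have h4 := h3.1
        rw [hR] at h4
        simp only [mem_filter, mem_univ, true_and] at h4
        exact hP2 z e h4.1 h1 h2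
      · rintro ⟨h1, h2⟩
        exact ⟨hP1 z e h2, h1⟩
    have hset2 : ((RHa Λ b (o z)).filter (fun e => suR b (o z) ω e)).filter (fun e => e ∉ R z ×ˢ C z) =
        lo ω z := by
      ext e
      rw [mem_filter]
      constructor
      · rintro ⟨h1, h2⟩
        exact (hmem e h1).1 h2
      · intro h1
        have h2 : e ∈ (RHa Λ b (o z)).filter (fun e => suR b (o z) ω e) := by
          rw [hlo] at h1
          simp only [mem_filter] at h1
          rw [mem_filter]
          exact ⟨h1.1, h1.2.1⟩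
        exact ⟨h2, (hmem e h2).2 h1⟩
    rw [← Finset.sum_filter_add_sum_filter_not ((RHa Λ b (o z)).filter (fun e => suR b (o z) ω e))
      (fun e => e ∈ R z ×ˢ C z), hset, hset2]
    have h5 : ∑ e ∈ lo ω z, w z e ≤ Real.log L * (((lo ω z).card : ℕ) : ℝ) := by
      calc ∑ e ∈ lo ω z, w z e ≤ ∑ _e ∈ lo ω z, Real.log L := Finset.sum_le_sum fun e _ => hwL z e
        _ = _ := by rw [Finset.sum_const, nsmul_eq_mul, mul_comm]
    have h6 : ∑ e ∈ (R z ×ˢ C z).filter (fun e => P (Ch z) e (o z e) = true), w z e ≤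
        ∑ e ∈ (R z ×ˢ C z).filter (fun e => P (Ch z) e (o z e) = true),
        Real.log (Real.exp (-ε) * kk L (1 / 2) d (oo q a a' φ T J z e).1 (z.1 e.1) (z.2 e.2)) :=
      Finset.sum_le_sum fun e _ => hwlog z e
    linarith
  -- the sum over the samples
  obtain ⟨Nω, hNω⟩ : ∃ Nω : ℝ, Nω = ((Fintype.card (OmR k S τ) : ℕ) : ℝ) := ⟨_, rfl⟩
  have hNω0 : 0 < Nω := by
    rw [hNω]
    exact_mod_cast Fintype.card_pos
  have hz : ∀ z, Nω * ((∑ e ∈ RHa Λ b (o z), w z e) / 2 ^ τ) -
      Real.log L * (Nω * ((((RHa Λ b (o z)).card : ℕ) : ℝ) / 128 / 2 ^ τ)) ≤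
      ∑ ω : OmR k S τ, (∑ e ∈ (RHa Λ b (o z)).filter (fun e => suR b (o z) ω e), w z e -
        Real.log L * (((lo ω z).card : ℕ) : ℝ)) := by
    intro z
    rw [Finset.sum_sub_distrib, ← Finset.mul_sum]
    have h1 := hGNR k S τ Λ b hb (o z) (ho z) (w z)
    have h2 := hLSR k S τ Λ b D h0 hb hΛ hD hh0 hk (o z) (ho z)
    rw [← hNω] at h1 h2
    rw [h1]
    have h3 : ∑ ω : OmR k S τ, (((lo ω z).card : ℕ) : ℝ) ≤
        Nω * ((((RHa Λ b (o z)).card : ℕ) : ℝ) / 128 / 2 ^ τ) := by
      rw [hlo]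
      exact h2
    have h4 := mul_le_mul_of_nonneg_left h3 hl.le
    linarith
  have hall : ∑ z, (Nω * ((∑ e ∈ RHa Λ b (o z), w z e) / 2 ^ τ) -
      Real.log L * (Nω * ((((RHa Λ b (o z)).card : ℕ) : ℝ) / 128 / 2 ^ τ))) ≤ Nω * (Zc * LB) := by
    calc _ ≤ ∑ z, ∑ ω : OmR k S τ, (∑ e ∈ (RHa Λ b (o z)).filter (fun e => suR b (o z) ω e), w z e -
        Real.log L * (((lo ω z).card : ℕ) : ℝ)) := Finset.sum_le_sum fun z _ => hz z
      _ = ∑ ω : OmR k S τ, ∑ z, (∑ e ∈ (RHa Λ b (o z)).filter (fun e => suR b (o z) ω e), w z e -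
        Real.log L * (((lo ω z).card : ℕ) : ℝ)) := Finset.sum_comm
      _ ≤ ∑ _ω : OmR k S τ, Zc * LB := Finset.sum_le_sum fun ω _ => hsample ω
      _ = Nω * (Zc * LB) := by
        rw [Finset.sum_const, Finset.card_univ, nsmul_eq_mul, ← hNω]
  have h2τ : (0 : ℝ) < 2 ^ τ := by positivity
  have hsum : ∑ z, (Nω * ((∑ e ∈ RHa Λ b (o z), w z e) / 2 ^ τ) -
      Real.log L * (Nω * ((((RHa Λ b (o z)).card : ℕ) : ℝ) / 128 / 2 ^ τ))) =
      Nω / 2 ^ τ * (∑ z, ∑ e ∈ RHa Λ b (o z), w z e -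
        Real.log L / 128 * ∑ z, (((RHa Λ b (o z)).card : ℕ) : ℝ)) := by
    rw [Finset.sum_sub_distrib, mul_sub, Finset.mul_sum, Finset.mul_sum, Finset.mul_sum]
    congr 1
    · exact Finset.sum_congr rfl fun z _ => by ring
    · exact Finset.sum_congr rfl fun z _ => by ring
  rw [hsum] at hall
  have hpos : 0 < Nω / 2 ^ τ := by positivity
  have hfin : Nω / 2 ^ τ * (∑ z, ∑ e ∈ RHa Λ b (o z), w z e -
        Real.log L / 128 * ∑ z, (((RHa Λ b (o z)).card : ℕ) : ℝ)) ≤
      Nω / 2 ^ τ * (2 ^ τ * (Zc * LB)) := by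
    refine hall.trans (le_of_eq ?_)
    field_simp
  have := le_of_mul_le_mul_left hfin hpos
  linarith

end Pool.Agent.T2h38.OP
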