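import Pool.Agent.T2h38.OP.Stm

/-!
# Project OP, task ROW (helper58)
-/

set_option autoImplicit false

namespace Pool.Agent.T2h38.OP

open Finset Pool.Agent.T2h38.JM

theorem rl_le {k S : ℕ} (o : Fin k × Fin k → Finset (Fin S)) (i : Fin k) (c : Fin S) :
    rl o i c ≤ k := by
  unfold rl
  exact (Finset.card_le_univ _).trans (by rw [Fintype.card_fin])

/-- the scale of a number -/
theorem exists_scale {Λ τ n : ℕ} (h1 : Λ < n) (h2 : n ≤ Λ * 2 ^ τ) :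
    ∃ a < τ, Λ * 2 ^ a < n ∧ n ≤ Λ * 2 ^ (a + 1) := by
  induction τ with
  | zero =>
    rw [pow_zero, mul_one] at h2
    omega
  | succ τ ih =>
    by_cases h : n ≤ Λ * 2 ^ τ
    · obtain ⟨a, ha, h3⟩ := ih h
      exact ⟨a, by omega, h3⟩
    · exact ⟨τ, by omega, by omega, h2⟩

theorem scale_unique {Λ n a b : ℕ} (ha1 : Λ * 2 ^ a < n) (ha2 : n ≤ Λ * 2 ^ (a + 1))
    (hb1 : Λ * 2 ^ b < n) (hb2 : n ≤ Λ * 2 ^ (b + 1)) : a = b := by
  by_contra hne
  rcases Nat.lt_or_gt_of_ne hne with h | h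
  · have : Λ * 2 ^ (a + 1) ≤ Λ * 2 ^ b := Nat.mul_le_mul_left _ (Nat.pow_le_pow_right (by norm_num) h)
    omega
  · have : Λ * 2 ^ (b + 1) ≤ Λ * 2 ^ a := Nat.mul_le_mul_left _ (Nat.pow_le_pow_right (by norm_num) h)
    omega

theorem RHa_disj {k S : ℕ} (Λ : ℕ) (o : Fin k × Fin k → Finset (Fin S)) (ho : ∀ e, (o e).card ≤ 1)
    {a b : ℕ} (hab : a ≠ b) : Disjoint (RHa Λ a o) (RHa Λ b o) := by
  rw [Finset.disjoint_left]
  intro e h1 h2
  unfold RHa at h1 h2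
  rw [mem_filter] at h1 h2
  obtain ⟨-, c, hc, hc1⟩ := h1
  obtain ⟨-, c', hc', hc2⟩ := h2
  have hcc : c = c' := Finset.card_le_one.1 (ho e) c hc c' hc'
  subst hcc
  unfold KC at hc1 hc2
  rw [mem_filter] at hc1 hc2
  exact hab (scale_unique hc1.2.1 hc1.2.2 hc2.2.1 hc2.2.2)

theorem RH_eq {k S : ℕ} (Λ τ : ℕ) (hk : k ≤ Λ * 2 ^ τ) (o : Fin k × Fin k → Finset (Fin S)) :
    RH Λ o = (range τ).biUnion fun a => RHa Λ a o := by
  ext e
  rw [mem_biUnion]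
  unfold RH RHa KC
  simp only [mem_filter, mem_univ, true_and, mem_range]
  constructor
  · rintro ⟨c, hc, h⟩
    obtain ⟨a, ha, h1, h2⟩ := exists_scale h ((rl_le o e.1 c).trans hk)
    exact ⟨a, ha, c, hc, h1, h2⟩
  · rintro ⟨a, ha, c, hc, h1, h2⟩
    refine ⟨c, hc, lt_of_le_of_lt ?_ h1⟩
    exact Nat.le_mul_of_pos_right _ (by positivity)

theorem t_ROW : S_ROW := by
  intro hROA h1 h2 h3 h4 h5 α A _ _ k S V W r L ε hL hε d q a a' φ T D v0 J hSC Λ τ h0 hΛ hD hh0 hk hk1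
  have ho : ∀ z e, (cc q a a' φ T J z e).card ≤ 1 := by
    intro z e
    have := run_card (J z) (a (φ z) e.1 (z.1 e.1)) (a' (φ z) e.2 (z.2 e.2))
      (q (φ z) e.1 e.2) T 1 ∅
    rw [Finset.card_empty, zero_add] at this
    exact this
  have hl : 0 < Real.log L := Real.log_pos hL
  have hdis : ∀ z, ∀ x ∈ range τ, ∀ y ∈ range τ, x ≠ y →
      Disjoint (RHa Λ x (cc q a a' φ T J z)) (RHa Λ y (cc q a a' φ T J z)) :=
    fun z x _ y _ hxy => RHa_disj Λ _ (ho z) hxy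
  have e1 : ∀ z, ∑ e ∈ RH Λ (cc q a a' φ T J z), ww L ε d q a a' φ T J z e =
      ∑ x ∈ range τ, ∑ e ∈ RHa Λ x (cc q a a' φ T J z), ww L ε d q a a' φ T J z e := by
    intro z
    rw [RH_eq Λ τ hk, Finset.sum_biUnion]
    intro x hx y hy hxy
    exact hdis z x (by simpa using hx) y (by simpa using hy) hxy
  have e2 : ∀ z, ∑ x ∈ range τ, (((RHa Λ x (cc q a a' φ T J z)).card : ℕ) : ℝ) ≤ (k : ℝ) ^ 2 := by
    intro z
    have h6 : ∑ x ∈ range τ, (RHa Λ x (cc q a a' φ T J z)).card ≤ k * k := by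
      rw [← Finset.card_biUnion (hdis z)]
      refine (Finset.card_le_univ _).trans ?_
      rw [Fintype.card_prod, Fintype.card_fin]
    calc ∑ x ∈ range τ, (((RHa Λ x (cc q a a' φ T J z)).card : ℕ) : ℝ)
        = ((∑ x ∈ range τ, (RHa Λ x (cc q a a' φ T J z)).card : ℕ) : ℝ) := by push_cast; rfl
      _ ≤ ((k * k : ℕ) : ℝ) := by exact_mod_cast h6
      _ = (k : ℝ) ^ 2 := by push_cast; ring
  have e3 : ∀ x ∈ range τ, _ := fun x hx =>
    hROA h1 h2 h3 h4 h5 α A k S V W r L ε hL hε d q a a' φ T D v0 J hSC Λ τ x h0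
      (mem_range.1 hx) hΛ hD hh0 hk hk1
  have e4 := Finset.sum_le_sum e3
  calc ∑ z, ∑ e ∈ RH Λ (cc q a a' φ T J z), ww L ε d q a a' φ T J z e
      = ∑ x ∈ range τ, ∑ z, ∑ e ∈ RHa Λ x (cc q a a' φ T J z), ww L ε d q a a' φ T J z e := by
        rw [Finset.sum_comm]
        exact Finset.sum_congr rfl fun z _ => e1 z
    _ ≤ _ := e4
    _ = Real.log L / 128 * (∑ z, ∑ x ∈ range τ, (((RHa Λ x (cc q a a' φ T J z)).card : ℕ) : ℝ)) +
        τ * (2 ^ τ * ((Fintype.card ((Fin k → α) × (Fin k → α)) : ℕ) *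
      (Real.log 2 + k * h0 * Real.log ((S : ℝ) * V + 1) + 2 * k * Real.log 2 + Real.log r))) := by
        rw [Finset.sum_add_distrib, ← Finset.mul_sum, Finset.sum_comm, Finset.sum_const, card_range,
          nsmul_eq_mul]
    _ ≤ Real.log L / 128 * (∑ _z : (Fin k → α) × (Fin k → α), (k : ℝ) ^ 2) +
        τ * (2 ^ τ * ((Fintype.card ((Fin k → α) × (Fin k → α)) : ℕ) *
      (Real.log 2 + k * h0 * Real.log ((S : ℝ) * V + 1) + 2 * k * Real.log 2 + Real.log r))) := by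
        have : ∑ z, ∑ x ∈ range τ, (((RHa Λ x (cc q a a' φ T J z)).card : ℕ) : ℝ) ≤
            ∑ _z : (Fin k → α) × (Fin k → α), (k : ℝ) ^ 2 := Finset.sum_le_sum fun z _ => e2 z
        have h7 := mul_le_mul_of_nonneg_left this (by positivity : 0 ≤ Real.log L / 128)
        linarith
    _ = _ := by
        rw [Finset.sum_const, Finset.card_univ, nsmul_eq_mul]
        ring

end Pool.Agent.T2h38.OP
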