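import Pool.Agent.T2h38.OP.Stm

/-!
# Project OP, task SWP (helper58)
-/

set_option autoImplicit false

namespace Pool.Agent.T2h38.OP

open Finset Pool.Agent.T2h38.JM

theorem t_SWP : S_SWP := by
  intro A S V W q J u v
  induction q with
  | out b =>
    intro T t acc
    simp only [swp, QAlg.run]
  | read s a k ih =>
    intro T t acc
    simp only [swp, QAlg.run, ih]
    cases s <;> simp
  | probe c k ih =>
    intro T t acc
    simp only [swp, QAlg.run, ih]

end Pool.Agent.T2h38.OP
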