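import Pool.Agent.T2h38.OP.Stm

set_option autoImplicit false

namespace Pool.Agent.T2h38.OP

open Finset Pool.Agent.T2h38.JM

theorem t_WGT : S_WGT := by
  intro α A k S V W r L ε hL hε d q a a' φ T J z e
  have hl : 0 < Real.log L := Real.log_pos hL
  have hl2 : 0 < Real.log 2 := Real.log_pos (by norm_num)
  constructor
  · unfold ww wt2
    split_ifs <;> linarith
  · have hL0 : L ≠ 0 := by linarith
    unfold ww wt2 kk
    by_cases hg : (oo q a a' φ T J z e).1 = some (!(d (z.1 e.1) (z.2 e.2)))
    · rw [if_pos hg, if_neg (not_not.2 hg)]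
      by_cases hd : d (z.1 e.1) (z.2 e.2) = true
      · rw [if_pos hd, if_pos hd, Real.log_mul (Real.exp_pos _).ne' hL0, Real.log_exp]
        linarith
      · rw [if_neg hd, if_neg hd, mul_one, Real.log_exp]
        linarith
    · rw [if_neg hg, if_pos hg, Real.log_mul (Real.exp_pos _).ne' (by norm_num), Real.log_exp]
      have h2 : Real.log (1 / 2) = - Real.log 2 := by rw [one_div, Real.log_inv]
      rw [h2]
      split_ifs <;> linarith

end Pool.Agent.T2h38.OP
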